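import Pool.Agent.helper71.DSW.Defs

/-!
# Project dsw, block B: random matrices, moves, the Burke bound

Each row proves one of the statements `XX_stmt`: file `Pool/Agent/<seat>/DSW/XX.lean`,
`import Pool.Agent.helper71.DSW.SpecB`, `namespace Pool.Agent.DSW`, the same open lines as here,
auxiliary lemmas prefixed `XX_`. Other rows only as hypotheses.
-/

set_option autoImplicit false

namespace Pool.Agent.DSW

open Equiv Finset Function Pool.Agent.helper48.PP
open scoped ENNReal Classical

/-! ## Random matrices -/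

/-- `PRL` (short). Elementary facts on `Pr`: (1) total mass one (`Finset.sum_pow_mul_eq_add_pow`);
(2) monotone in the event; (3) union bound; (4) the probability that a given set `T ⊆ C` is
contained in `S` is `p^|T|` (`S = T ∪ S'`, `S' ⊆ C \ T`); (5) transport by an injective map
(`S ↦ S.image φ` is a bijection between the subsets of `C` and of `C.image φ` that preserves
cardinalities). -/
def PRL_stmt : Prop := ∀ (γ : Type) (C : Finset γ) (p : ℝ), 0 ≤ p → p ≤ 1 →
  Pr C p (fun _ => True) = 1 ∧
  (∀ A B : Finset γ → Prop, (∀ S ⊆ C, A S → B S) → Pr C p A ≤ Pr C p B) ∧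
  (∀ A B : Finset γ → Prop, Pr C p (fun S => A S ∨ B S) ≤ Pr C p A + Pr C p B) ∧
  (∀ T ⊆ C, Pr C p (fun S => T ⊆ S) = p ^ T.card) ∧
  (∀ (δ : Type) (φ : γ → δ), Set.InjOn φ (C : Set γ) → ∀ A : Finset δ → Prop,
    Pr (C.image φ) p A = Pr C p (fun S => A (S.image φ)))

/-- `FKG` (medium). FKG inequality for a product measure. The sets `S ⊆ C` with `T ⊆ S` are
`T ∪ S'` with `S' ⊆ C \ T`, and `F ⊆ T ∪ S'` iff `F ⊆ S'` for `F ⊆ C \ T`; this gives the factor
`p^|T|` and reduces to `T = ∅` and `C' = C \ T`. Then induction on `𝓕`: the events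
`∀ F ∈ 𝓕, ¬ F ⊆ S` and `¬ F₀ ⊆ S` are decreasing, so their indicators are positively correlated:
Mathlib's `fkg` on the lattice `Finset ↥C'` (or its order dual, with `μ S = p^|S| (1-p)^(|C'|-|S|)`,
`μ S * μ S' = μ (S ∩ S') * μ (S ∪ S')`); and `P(¬ F₀ ⊆ S) = 1 - p^|F₀|`. -/
def FKG_stmt : Prop := ∀ (γ : Type) (C T : Finset γ) (p : ℝ) (𝓕 : Finset (Finset γ)),
  0 ≤ p → p ≤ 1 → T ⊆ C → (∀ F ∈ 𝓕, F ⊆ C \ T) →
  p ^ T.card * ∏ F ∈ 𝓕, (1 - p ^ F.card) ≤ Pr C p (fun S => T ⊆ S ∧ ∀ F ∈ 𝓕, ¬ F ⊆ S)

/-- `GPC` (medium). The sets of `n` points in general position in an `M x M'` rectangle are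
`{(x_r, y_(w r))}` with `x`, `y : Fin n → ℕ` the increasing enumerations of two sets of `n`
columns and `n` rows, `w` a permutation: `(x, y, w) ↦ S` is a bijection (onto the sets in general
position with `n` elements), and `S` has the pattern `τ` iff `w` contains `τ`
(if `(x' j, y' (τ j)) ∈ S` then `x' j = x_(f j)` with `f` strictly increasing and
`y' (τ j) = y_(w (f j))`; conversely `x' j = x_(f j)`, `y' v = y_(w (f (τ⁻¹ v)))`). -/
def GPC_stmt : Prop := ∀ (k : ℕ) (τ : Perm (Fin k)) (M M' n : ℕ),
  ((Finset.range M ×ˢ Finset.range M').powerset.filter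
    fun S => GP S ∧ S.card = n ∧ Has τ S).card =
  M.choose n * M'.choose n * (Finset.univ.filter fun w : Perm (Fin n) => Contains w τ).card

/-- `LNK` (short; hypothesis `GPC_stmt`). Write the probability of `GP S ∧ Has τ S` as the sum over
`n` of `p^n (1-p)^(M M' - n)` times the number in `GPC`; the number of `w` that contain `τ` is
`n! - avCount n τ`, so by hypothesis at most the number of the `w` that contain `σ`. And
`Has τ S` implies `(GP S ∧ Has τ S) ∨ ¬ GP S`. -/
def LNK_stmt : Prop := ∀ (k l : ℕ) (σ : Perm (Fin k)) (τ : Perm (Fin l)),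
  (∀ n, avCount n σ ≤ avCount n τ) → ∀ (M M' : ℕ) (p : ℝ), 0 ≤ p → p ≤ 1 →
  Pr (Finset.range M ×ˢ Finset.range M') p (Has τ) ≤
    Pr (Finset.range M ×ˢ Finset.range M') p (Has σ) +
    Pr (Finset.range M ×ˢ Finset.range M') p (fun S => ¬ GP S)

/-- `GPB` (short; hypothesis `PRL_stmt`). Union bound over the ordered pairs of different cells in
one line: at most `M M'^2 + M^2 M'` of them, each with probability `p^2` (`PRL` (4)). Induction over
the finite set of pairs, or bound `∑_S` of the number of pairs in `S`. -/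
def GPB_stmt : Prop := ∀ (M M' : ℕ) (p : ℝ), 0 ≤ p → p ≤ 1 →
  Pr (Finset.range M ×ˢ Finset.range M') p (fun S => ¬ GP S) ≤
    p ^ 2 * ((M : ℝ) * (M' : ℝ) ^ 2 + (M : ℝ) ^ 2 * (M' : ℝ))

/-! ## The Burke bound -/

/-- `CEL` (medium). One column. Induction on `n` (for all `F`), splitting off the LAST row
(`Fin.snoc`) — `hor` and `ver` up to row `n - 1` do not depend on row `n`: the sum over the last
entries `j = J n`, `ω = w n` and the current horizontal increment `i = hor n` is
`∑_(i,j,ω) mu a i mu β j mu p ω G(!i && (j || ω), !j && (i || ω)) = ∑_(i,j) mu a i mu β j G(j, i)`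
(with `G(new vertical, new horizontal)`): the values of (vertical, horizontal): (1,1) only from
`(i,j,ω) = (0,0,1)`, weight `(1-a)(1-β)p = aβ`; (0,0) from `(0,0,0)` and `(1,1,·)`, weight
`(1-a)(1-β)(1-p) + aβ = (1-a)(1-β)`; (vertical 1, horizontal 0) from `(0,1,·)`, weight `(1-a)β`;
(0,1) from `(1,0,·)`, weight `a(1-β)`. First use the induction hypothesis (with `F` the sum over the
last row) and then this identity. -/
def CEL_stmt : Prop := ∀ (n : ℕ) (a β p : ℝ), a * β = p * ((1 - a) * (1 - β)) →
  ∀ F : (Fin n → Bool) → Bool → ℝ,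
  (∑ I : Bool, ∑ J : Fin n → Bool, ∑ w : Fin n → Bool,
    mu a I * (∏ y, mu β (J y)) * (∏ y, mu p (w y)) *
      F (fun y => ver I (exb J) (exb w) (y : ℕ)) (hor I (exb J) (exb w) n)) =
  ∑ I : Bool, ∑ J : Fin n → Bool, mu a I * (∏ y, mu β (J y)) * F J I

/-- `ITR` (short to medium; hypothesis `CEL_stmt`). Induction on `M`: `Js` after `M + 1` columns is
`ver (I M) (Js .. M) (w M)`; only rows `< M'` of the vertical increments and of the columns matter
(`ver` in row `y` depends only on the rows `≤ y`); apply `CEL` (with `F` not depending on the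
horizontal increment) and then the induction hypothesis. -/
def ITR_stmt : Prop := ∀ (M M' : ℕ) (a β p : ℝ), a * β = p * ((1 - a) * (1 - β)) →
  ∀ F : (Fin M' → Bool) → ℝ,
  (∑ I : Fin M → Bool, ∑ J : Fin M' → Bool, ∑ w : Fin M → Fin M' → Bool,
    (∏ x, mu a (I x)) * (∏ y, mu β (J y)) * (∏ x, ∏ y, mu p (w x y)) *
      F (fun y => Js (exb I) (exb J)
        (fun x => if h : x < M then exb (w ⟨x, h⟩) else fun _ => false) M (y : ℕ))) =
  ∑ J : Fin M' → Bool, (∏ y, mu β (J y)) * F J

/-- `PTH` (medium). Let `G x y` be the number of `x' < x` with `I x'` plus the number of `y' < y` with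
`Js I J w x y'`. (i) `G (x+1) y = G x y + [hor (I x) (Js x) (w x) y]`: induction on `y`, for every row
`[ver] + [hor y] ... = ` : with `i = hor y`, `j = Js x y`, `ω = w x y` one has
`[!i && (j || ω)] - [j] = [!j && (i || ω)] - [i]` (8 cases). (ii) `G (x+1) y ≥ G x y`,
`G x (y+1) ≥ G x y`, and `G (x+1) (y+1) ≥ G x y + [w x y]` (`[hor y] + [ver y] ≥ [ω]`).
(iii) For a chain of length `k` in `[0,M) x [0,M')`, `G M M' ≥ k`, by induction on `k`: the first
`k - 1` points give `G (x_last) (y_last) ≥ k - 1`. -/
def PTH_stmt : Prop := ∀ (I J : ℕ → Bool) (w : ℕ → ℕ → Bool) (M M' k : ℕ) (x y : Fin k → ℕ),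
  StrictMono x → StrictMono y → (∀ j, x j < M ∧ y j < M' ∧ w (x j) (y j) = true) →
  k ≤ ((Finset.range M).filter fun x => I x = true).card +
    ((Finset.range M').filter fun y => Js I J w M y = true).card

/-- `PRB` (short). `Pr` for a rectangle as a sum over boolean matrices: `S` corresponds to
`w x y = true` iff `(x, y) ∈ S`. -/
def PRB_stmt : Prop := ∀ (M M' : ℕ) (p : ℝ) (A : Finset (ℕ × ℕ) → Prop),
  Pr (Finset.range M ×ˢ Finset.range M') p A =
  ∑ w : Fin M → Fin M' → Bool, (∏ x, ∏ y, mu p (w x y)) *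
    (if A (Finset.univ.filter (fun z : Fin M × Fin M' => w z.1 z.2 = true) |>.image
      fun z => ((z.1 : ℕ), (z.2 : ℕ))) then 1 else 0)

/-- `BUR` (medium; hypotheses `ITR_stmt`, `PTH_stmt`, `PRB_stmt`). By `PRB`, and since the weights
of the sources `I` (Bernoulli α) and sinks `J` (Bernoulli β) have sum one,
`z^k Pr(Has) = z^k ∑_(I,J,w) weights * [Has]`, and by `PTH`
`z^k [Has] ≤ z^(number of I x = 1) z^(number of exits)` (both sides nonnegative, `z ≥ 1`; a chain of
length `k` exists if `Has (1 : Perm (Fin k)) S`). Now `mu α b z^[b] = (1 + α(z-1)) mu α' b` with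
`α' = α z / (1 + α (z-1))`, and `α' β = p (1-α')(1-β)` as `1 - α' = (1-α)/(1+α(z-1))`. So by `ITR` the
sum is `(1 + α(z-1))^M ∑_J (∏ mu β (J y)) z^(number of J y = 1) = (1+α(z-1))^M (1+β(z-1))^M'`. -/
def BUR_stmt : Prop := ∀ (M M' k : ℕ) (p z α β : ℝ), 0 ≤ p → p ≤ 1 → 1 ≤ z → 0 ≤ α → α ≤ 1 →
  0 ≤ β → β ≤ 1 → z * (α * β) = p * ((1 - α) * (1 - β)) →
  z ^ k * Pr (Finset.range M ×ˢ Finset.range M') p (Has (1 : Perm (Fin k))) ≤
    (1 + α * (z - 1)) ^ M * (1 + β * (z - 1)) ^ M'

/-! ## Copies of the grid, moves -/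

/-- `TOT` (short). `Better` is total (look at the first block, in the order of pairs, where the
arrays differ; arrays with the same cells are equal), irreflexive and asymmetric; `cellAt e` is
injective, so `cells e` has `L * L` elements; if `e` is valid its cells are in the domain. -/
def TOT_stmt : Prop := ∀ L : ℕ,
  (∀ e e' : Arr L, e ≠ e' → Better e e' ∨ Better e' e) ∧
  (∀ e e' : Arr L, Better e e' → ¬ Better e' e) ∧
  (∀ e : Arr L, (cells e).card = L * L) ∧
  (∀ (m m' : Fin L → ℕ) (e : Arr L), Valid m m' e → cells e ⊆ Dom m m')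

/-- `CUT` (medium). Moving only a part of the points. Let `e, e'` be valid, `R ⊆ mov e e'`, and let
`e''` be the array with the points of `e'` in the blocks of `R` and the points of `e` in the other
blocks. Suppose that for adjacent blocks `u ∈ R`, `v ∉ R` one has `v ∉ mov e e'` (no edges between
`R` and the rest of `mov e e'`). Then `e''` is valid: in a column segment compare neighbours `i`, `i+1`
(for strict monotonicity on `Fin L` it is enough to compare neighbours): both in `R`: `e'`; both not
in `R`: `e`; one in `R`, the other not: the other one is not in `mov e e'`, so its point is the same in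
`e` and `e'`: `e'` again. The same for the row segments. Moreover `mov e e'' = R` and the cells of
`e''` are cells of `e` or `e'`. -/
def CUT_stmt : Prop := ∀ (L : ℕ) (m m' : Fin L → ℕ) (e e' : Arr L) (R : Finset (Fin L × Fin L)),
  Valid m m' e → Valid m m' e' → R ⊆ mov e e' →
  (∀ u ∈ R, ∀ v ∉ R, Adj u v → v ∉ mov e e') →
  ∃ e'' : Arr L, Valid m m' e'' ∧ mov e e'' = R ∧
    (∀ u ∈ R, cellAt e'' u = cellAt e' u) ∧ (∀ u ∉ R, cellAt e'' u = cellAt e u)

/-- `MIN` (medium; hypothesis `CUT_stmt`). Among all valid `e''` with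
`cells e'' ⊆ cells e ∪ cells e'` and `Better e'' e` (for example `e'`) take one with `|mov e e''|`
minimal. Put `R = mov e e''`; it is not empty (`Better`). Let `u₀` be the first block of `R` in the
order of pairs: there the point of `e''` is smaller (lexicographically) than the point of `e`.
(1) `R` is connected: otherwise there is `∅ ≠ R' ⊂ R` with no edges between `R'` and `R \ R'`; one of
`R'`, `R \ R'` contains `u₀`, and `CUT` for it gives a better copy with fewer moved points.
(2) If `|R| = 2`, `R` consists of two adjacent blocks. (2a) `R = {(b, i), (b, i+1)}`, `u₀ = (b, i)`: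
move only the point in `(b, i)`. The first coordinate `≤ e.1 b i < e.1 b (i+1)`; it is larger than
`e.1 b (i-1)` as `e''` is valid and the point in `(b, i-1)` did not move; in the row segment `i`
the neighbours did not move. So this is a valid better copy with one moved point, contradiction.
(2b) `R = {(b, i), (b', i)}`, `b' = b + 1`, `u₀ = (b, i)`. If `e''.2 i b < e.2 i b'`, then moving only
the point in `(b, i)` is valid and better, contradiction; so `e.2 i b' ≤ e''.2 i b`, and as
`e.2 i b < e.2 i b'` the point in `(b, i)` went up, so being smaller it went strictly to the left: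
`e''.1 b i < e.1 b i`. Moving only the point in `(b', i)` is valid: its height in `e''` is
`> e''.2 i b ≥ e.2 i b' > e.2 i b` and below the next one. If it went to the left this would be
better, contradiction; so `e.1 b' i ≤ e''.1 b' i`: `TypeA`. (In (2a), (2b) the single moves can be
built by hand or with `Function.update`; `CUT` does not apply to them.) -/
def MIN_stmt : Prop := ∀ (L : ℕ) (m m' : Fin L → ℕ) (e e' : Arr L),
  Valid m m' e → Valid m m' e' → Better e' e →
  ∃ e'' : Arr L, Move m m' e e'' ∧ cells e'' ⊆ cells e ∪ cells e'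

/-- `FST` (short to medium; hypotheses `FKG_stmt`, `MIN_stmt`, `TOT_stmt`). `FKG` with
`C = Dom m m'`, `T = cells e`, `𝓕 = Bad m m' e`: an `F ∈ Bad` is the image of `mov e e'` under
`cellAt e'`; as the cells of `e'` in the blocks of `mov e e'` are different from those of `e`,
`F ⊆ Dom m m' \ cells e`. If `cells e ⊆ S` and no `F ∈ Bad m m' e` is contained in `S`, then `e` is
first in `S`: otherwise there is a valid better `e'` with `cells e' ⊆ S`, and the set of new points
of the `e''` of `MIN` is in `Bad` and contained in `S`. -/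
def FST_stmt : Prop := ∀ (L : ℕ) (m m' : Fin L → ℕ) (e : Arr L) (p : ℝ), 0 ≤ p → p ≤ 1 →
  Valid m m' e →
  p ^ (L * L) * ∏ F ∈ Bad m m' e, (1 - p ^ F.card) ≤ Pr (Dom m m') p (First m m' e)

/-- `POS` (short). Elementary facts on `pos`: `pos g (i+1) = pos g i + g (i+1) + 1` for `i < L`,
`pos g 0 = g 0`; so `arr a c` is valid in its domain; `pos g L = ∑ g + L`; and `g` is determined by
`pos g i`, `i ≤ L`; so `(a, c)` is determined by `arr a c`, `len a`, `len c`. -/
def POS_stmt : Prop :=
  (∀ (L : ℕ) (g : Fin (L + 1) → ℕ), pos g 0 = g 0 ∧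
    (∀ i : Fin L, pos g ((i : ℕ) + 1) = pos g (i : ℕ) + g i.succ + 1) ∧
    pos g L = (∑ j, g j) + L) ∧
  (∀ (L : ℕ) (a c : Fin L → Fin (L + 1) → ℕ), Valid (len a) (len c) (arr a c)) ∧
  (∀ (L : ℕ) (a c a' c' : Fin L → Fin (L + 1) → ℕ), arr a c = arr a' c' → len a = len a' →
    len c = len c' → a = a' ∧ c = c')

/-- `RUN` (medium; hypothesis `POS_stmt`). Moving the points in `Q` in one segment. Let `U` be the
set of the `x < pos g L` that are in a gap `j ∈ adg Q` (gap `0`: `x < pos g 0`; gap `j + 1`:
`pos g j < x < pos g (j+1)`, where for `j + 1 = L` the upper end is the length `pos g L`), or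
are `pos g i` with `i ∈ Q`; it has `∑_(j ∈ adg Q) g j + |Q|` elements. If `s` is strictly increasing
with values `< pos g L` and agrees with `pos g` outside `Q`, then `s i ∈ U` for `i ∈ Q`: let
`i₁ ≤ i ≤ i₂` be the maximal interval in `Q` around `i`; then `s i` lies between `pos g (i₁ - 1)` and
`pos g (i₂ + 1)` (strictly; or from `0`, or up to the length), and everything there is in `U`.
And `s` is determined by the set `{s i : i ∈ Q} ⊆ U`, which has `|Q|` elements. -/
def RUN_stmt : Prop := ∀ (L : ℕ) (g : Fin (L + 1) → ℕ) (Q : Finset (Fin L)),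
  ((Fintype.piFinset fun _ : Fin L => Finset.range (pos g L)).filter
    fun s => StrictMono s ∧ ∀ i ∉ Q, s i = pos g (i : ℕ)).card ≤ bin Q g

/-- `B1N` (medium; hypothesis `POS_stmt`). The moves of one point: `F = {(u, (x, y))}`,
`u = (b, i)`; the neighbours do not move, so `x` is strictly between `s b (i-1)` and `s b (i+1)`,
`y` strictly between `t i (b-1)` and `t i (b+1)` (or the ends of the segments), and `(x, y)` is
smaller than the old point: either `x` is in the gap `i` to the left of the old point
(`a b i.castSucc` values) and `y` takes at most `c i b.castSucc + 1 + c i b.succ` values, or `x` is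
the old coordinate and `y` is in the gap below the old point (`c i b.castSucc` values). -/
def B1N_stmt : Prop := ∀ (L : ℕ) (a c : Fin L → Fin (L + 1) → ℕ),
  ((Bad (len a) (len c) (arr a c)).filter fun F => F.card = 1).card ≤ ∑ u, n1 a c u

/-- `B2N` (medium; hypothesis `POS_stmt`). The moves of two points are of type A (`F.card` is
`(mov e e').card`, `cellAt e'` is injective). For given `(b, b', i)`: the new first coordinate
of the point in `(b, i)` is in the gap to the left of the old one (`a b i.castSucc` values), that of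
the point in `(b', i)` is the old one or in the gap to its right (`a b' i.succ + 1` values), the two
new heights `y < y'` are both among `t i b'` and the gap above it (`c i b'.succ + 1` values):
`C(c i b'.succ + 1, 2)` pairs. -/
def B2N_stmt : Prop := ∀ (L : ℕ) (a c : Fin L → Fin (L + 1) → ℕ),
  ((Bad (len a) (len c) (arr a c)).filter fun F => F.card = 2).card ≤ ∑ q ∈ VP L, n2 a c q

/-- `B3N` (medium; hypotheses `RUN_stmt`, `POS_stmt`). For `F ∈ Bad` coming from `e'`, the image of
`F` under `Prod.fst` is `mov e e'`. For given `R = mov e e'`: `F` is determined by `e'`; `e'.1 b` is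
one of the at most `bin (rw1 R b) (a b)` sequences of `RUN` for `Q = rw1 R b`, `e'.2 i` one of the at
most `bin (rw2 R i) (c i)` sequences for `Q = rw2 R i`. -/
def B3N_stmt : Prop := ∀ (L : ℕ) (a c : Fin L → Fin (L + 1) → ℕ) (R : Finset (Fin L × Fin L)),
  ((Bad (len a) (len c) (arr a c)).filter fun F => F.image Prod.fst = R).card ≤ n3 a c R

/-- `KAP` (short to medium; hypotheses `B1N_stmt`, `B2N_stmt`, `B3N_stmt`). Split the product over
`F ∈ Bad` according to `F.card = 1`, `F.card = 2`, `F.card ≥ 3` (`F.card = (mov e e').card ≥ 1`), the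
last one according to `R = F.image Prod.fst ∈ CN L`, `R.card = F.card` (`Prod.fst` is injective on
`F`); all factors `1 - p^r` are in `[0,1]`, so `(1 - p^r)^(number) ≥ (1 - p^r)^(bound)`. -/
def KAP_stmt : Prop := ∀ (L : ℕ) (a c : Fin L → Fin (L + 1) → ℕ) (p : ℝ), 0 ≤ p → p ≤ 1 →
  kap p a c ≤ ∏ F ∈ Bad (len a) (len c) (arr a c), (1 - p ^ F.card)

/-- `TRF` (medium; hypothesis `PRL_stmt`). Put the blocks side by side:
`φ (u, (x, y)) = ((∑_(b < u.1) m b) + x, (∑_(i < u.2) m' i) + y)` is injective on `Dom m m'`, with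
image `range (∑ m) ×ˢ range (∑ m')` (only `⊆` and equal cardinality, or `Pr` of the image). If
`e` is valid and `cells e ⊆ S` then `S.image φ` has the pattern `grid L`: columns
`x (L b + i) = (∑_(b' < b) m b') + e.1 b i`, rows `y (L i + b) = (∑_(i' < i) m' i') + e.2 i b`, both
strictly increasing (`finProdFinEquiv`), and `grid L` maps `L b + i` to `L i + b`. -/
def TRF_stmt : Prop := ∀ (L : ℕ) (m m' : Fin L → ℕ) (p : ℝ), 0 ≤ p → p ≤ 1 →
  Pr (Dom m m') p (fun S => ∃ e : Arr L, Valid m m' e ∧ cells e ⊆ S) ≤
  Pr (Finset.range (∑ b, m b) ×ˢ Finset.range (∑ i, m' i)) p (Has (grid L))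

/-- `DSJ` (short to medium; hypothesis `TOT_stmt`). For a given `S` at most one valid `e` is first in
`S` (if `e ≠ e'` are both first, `Better e e'` or `Better e' e` contradicts one of them), and then
`S` contains a copy: exchange the sums. -/
def DSJ_stmt : Prop := ∀ (L : ℕ) (m m' : Fin L → ℕ) (p : ℝ) (E : Finset (Arr L)), 0 ≤ p → p ≤ 1 →
  (∀ e ∈ E, Valid m m' e) →
  ∑ e ∈ E, Pr (Dom m m') p (First m m' e) ≤
    Pr (Dom m m') p (fun S => ∃ e : Arr L, Valid m m' e ∧ cells e ⊆ S)

end Pool.Agent.DSW
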