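import Pool.Agent.helper71.DSW.SpecC

set_option autoImplicit false

namespace Pool.Agent.DSW

open Equiv Finset Function Pool.Agent.helper48.PP
open scoped ENNReal Classical

theorem AVG_prnn {γ : Type} (C : Finset γ) (p : ℝ) (h0 : 0 ≤ p) (h1 : p ≤ 1)
    (A : Finset γ → Prop) : 0 ≤ Pr C p A := by
  unfold Pr
  refine Finset.sum_nonneg fun S _ => mul_nonneg (pow_nonneg h0 _) (pow_nonneg (by linarith) _)

theorem AVG_weight (hWTL : WTL_stmt) (L H : ℕ) (hH : 1 ≤ H)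
    (x : Bool × Fin L × Fin (L + 1) → ℕ) :
    (H : ℝ≥0∞) ^ (2 * (L * L)) * ∏ i, wt H (x i) =
      (∏ b, wt H (len (ga x) b)) * ∏ i, wt H (len (gc x) i) := by
  have h1 : ∏ i, wt H (x i) =
      (∏ b : Fin L, ∏ j : Fin (L + 1), wt H (ga x b j)) *
        ∏ b : Fin L, ∏ j : Fin (L + 1), wt H (gc x b j) := by
    rw [Fintype.prod_prod_type, Fintype.prod_bool, mul_comm]
    congr 1
    · rw [Fintype.prod_prod_type]; rfl
    · rw [Fintype.prod_prod_type]; rfl
  have h2 : ∀ a : Fin L → Fin (L + 1) → ℕ, ∏ b, wt H (len a b) =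
      (H : ℝ≥0∞) ^ (L * L) * ∏ b : Fin L, ∏ j : Fin (L + 1), wt H (a b j) := by
    intro a
    have h3 : ∀ b, wt H (len a b) = (H : ℝ≥0∞) ^ L * ∏ j, wt H (a b j) :=
      fun b => hWTL L H (a b) hH
    rw [Finset.prod_congr rfl fun b _ => h3 b, Finset.prod_mul_distrib, Finset.prod_const,
      Finset.card_univ, Fintype.card_fin, ← pow_mul]
  rw [h1, h2, h2, two_mul, pow_add]
  ring

theorem AVG (hWTL : WTL_stmt) (hPOS : POS_stmt) (hDSJ : DSJ_stmt) (hTRF : TRF_stmt) :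
    AVG_stmt := by
  intro L H p hH h0 h1
  obtain ⟨-, hval, hinj⟩ := hPOS
  unfold Ex Pav
  rw [← ENNReal.tsum_mul_left]
  have hterm : ∀ x : Bool × Fin L × Fin (L + 1) → ℕ,
      (H : ℝ≥0∞) ^ (2 * (L * L)) * ((∏ i, wt H (x i)) *
        ENNReal.ofReal (Pr (Dom (len (ga x)) (len (gc x))) p
          (First (len (ga x)) (len (gc x)) (arr (ga x) (gc x))))) =
      ((∏ b, wt H (len (ga x) b)) * ∏ i, wt H (len (gc x) i)) *
        ENNReal.ofReal (Pr (Dom (len (ga x)) (len (gc x))) p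
          (First (len (ga x)) (len (gc x)) (arr (ga x) (gc x)))) := by
    intro x
    rw [← mul_assoc, AVG_weight hWTL L H hH x]
  rw [tsum_congr hterm]
  rw [← ENNReal.tsum_fiberwise _ (fun x : Bool × Fin L × Fin (L + 1) → ℕ =>
    ((len (ga x), len (gc x)) : (Fin L → ℕ) × (Fin L → ℕ)))]
  rw [← ENNReal.tsum_prod (f := fun (m m' : Fin L → ℕ) =>
    (∏ b, wt H (m b)) * (∏ i, wt H (m' i)) *
    ENNReal.ofReal (Pr (Finset.range (∑ b, m b) ×ˢ Finset.range (∑ i, m' i)) p (Has (grid L))))]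
  refine ENNReal.tsum_le_tsum fun mm => ?_
  obtain ⟨m, m'⟩ := mm
  have hfib : ∀ x : ↑((fun x : Bool × Fin L × Fin (L + 1) → ℕ =>
      ((len (ga x), len (gc x)) : (Fin L → ℕ) × (Fin L → ℕ))) ⁻¹' {(m, m')}),
      len (ga x.1) = m ∧ len (gc x.1) = m' := by
    intro x
    have := x.2
    simp only [Set.mem_preimage, Set.mem_singleton_iff, Prod.mk.injEq] at this
    exact this
  have hcong : ∀ x : ↑((fun x : Bool × Fin L × Fin (L + 1) → ℕ =>
      ((len (ga x), len (gc x)) : (Fin L → ℕ) × (Fin L → ℕ))) ⁻¹' {(m, m')}),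
      ((∏ b, wt H (len (ga x.1) b)) * ∏ i, wt H (len (gc x.1) i)) *
        ENNReal.ofReal (Pr (Dom (len (ga x.1)) (len (gc x.1))) p
          (First (len (ga x.1)) (len (gc x.1)) (arr (ga x.1) (gc x.1)))) =
      ((∏ b, wt H (m b)) * ∏ i, wt H (m' i)) *
        ENNReal.ofReal (Pr (Dom m m') p (First m m' (arr (ga x.1) (gc x.1)))) := by
    intro x
    obtain ⟨e1, e2⟩ := hfib x
    rw [e1, e2]
  rw [tsum_congr hcong, ENNReal.tsum_mul_left]
  refine mul_le_mul_right ?_ _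
  refine le_trans ?_ (ENNReal.ofReal_le_ofReal (hTRF L m m' p h0 h1))
  rw [ENNReal.tsum_eq_iSup_sum]
  refine iSup_le fun s => ?_
  rw [← ENNReal.ofReal_sum_of_nonneg fun i _ => AVG_prnn _ _ h0 h1 _]
  refine ENNReal.ofReal_le_ofReal ?_
  have hinj' : Set.InjOn (fun x : ↑((fun x : Bool × Fin L × Fin (L + 1) → ℕ =>
      ((len (ga x), len (gc x)) : (Fin L → ℕ) × (Fin L → ℕ))) ⁻¹' {(m, m')}) =>
      arr (ga x.1) (gc x.1)) (s : Set _) := by
    intro x _ y _ hxy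
    obtain ⟨e1, e2⟩ := hfib x
    obtain ⟨f1, f2⟩ := hfib y
    obtain ⟨g1, g2⟩ := hinj L (ga x.1) (gc x.1) (ga y.1) (gc y.1) hxy
      (e1.trans f1.symm) (e2.trans f2.symm)
    refine Subtype.ext (funext fun z => ?_)
    obtain ⟨b, i, j⟩ := z
    cases b
    · exact congrFun (congrFun g1 i) j
    · exact congrFun (congrFun g2 i) j
  have hsum := hDSJ L m m' p (s.image fun x => arr (ga x.1) (gc x.1)) h0 h1 (by
    intro e he
    rw [Finset.mem_image] at he
    obtain ⟨x, -, rfl⟩ := he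
    obtain ⟨e1, e2⟩ := hfib x
    have := hval L (ga x.1) (gc x.1)
    rw [e1, e2] at this
    exact this)
  rw [Finset.sum_image hinj'] at hsum
  exact hsum

end Pool.Agent.DSW
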