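import Pool.Agent.helper48.PP.Final

/-!
# Project dsw (MP_a87880_co): two patterns that switch places twice

THEOREM. For all large `L`, with `k = L^2 - 1`, the increasing pattern `I_k` and the grid
permutation `G_L` of length `L^2 = k + 1` (`grid L` below) satisfy
(a) `|Av_k(I_k)| < |Av_k(G_L)|`, (b) `|Av_n(G_L)| < |Av_n(I_k)|` for some `n > k`,
(c) `|Av_n(I_k)| < |Av_n(G_L)|` for all large `n`. So the two patterns switch places (at least)
twice; Stankova and West conjectured that this never happens.

(a) is clear (`k! - 1 < k!`).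

PROOF OF (c) (rows INC, GRM, SKW, DYA, RNM, LBL, EXF, SOR, PIM, CNT, DSU, GRO, LOG, FIA).
`|Av_n(I_k)| <= (k-1)^(2n)` (colour every element by the length of the longest increasing
subsequence that ends there; the colour classes are decreasing). A set `S` of points has an
`l x l` interval minor (`Minor l S`) if there are `l` disjoint intervals of columns and `l` disjoint
intervals of rows, in order, all `l^2` boxes of which meet `S`. A permutation that contains `G_L`
has an `L x L` minor. Let `N = 2^h`, and give every pair (dyadic interval of columns, dyadic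
interval of rows) a random label in `{0, .., Q-1}`, `Q = (h+1)^2`. Let `A` be the set of the cells
`(x,y)` of the `N x N` square such that no pair (dyadic interval containing `x`, dyadic interval
containing `y`) has label 0. A cell is in `A` with probability `(1-1/Q)^Q >= 1/4`. With `l = 3(h+1)^3`
the labels with an `l x l` submatrix without 0 have probability at most
`((h+1) 2^h)^(2l) (1-1/Q)^(l^2) <= 1/8`; so some `A` has at least `N^2/8` cells and comes from a
matrix of labels such that every `l x l` submatrix contains a 0. This `A` has no `l x l` minor: the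
smallest dyadic intervals containing the `l` intervals of columns are different, so are those for
the rows, and one of the `l^2` pairs has label 0. From a set `S` of `N` cells of `A` make a
permutation of length `N` (points in one column or one row in increasing order). It has no
`3l x 3l` minor, and at most `16^N` sets give the same permutation; there are at least `(N/8)^N`
sets, so at least `(N/128)^N` permutations. A direct sum of permutations without `3l x 3l` minor has
no `(3l+2) x (3l+2)` minor (the points in the boxes (first, last) and (last, first) are in the same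
summand, and so is everything between them). So if `L >= 3l+2` the number of avoiders of `G_L` of
length `n` is at least `(N/128)^(N [n/N])`, and `N/128 > L^4` if `L` is large and `h` is chosen well.

PROOF OF (b). Suppose `|Av_n(I_k)| <= |Av_n(G_L)|` for all `n`. Then for random 0-1 matrices of size
`M x M'` with independent entries (probability of a one: `p`), `P(contains G_L)` is at most
`P(contains I_k) + P(two ones in a line)` (rows GPC, LNK), and
`P(two ones in a line) <= p^2 (M M'^2 + M^2 M')` (row GPB). Take `M` the sum of `L` independent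
geometric variables with mean `H` (weights `wt H`), `M'` too, `p = θ/H^2`, `θ = 10^(-12)`; we let `H`
tend to infinity; the last term is `O(1/H)` (row GPA).

Upper bound (rows CEL, ITR, PTH, PRB, BUR, UBA). For the longest strictly increasing chain `G` of
ones of an `M x M'` matrix, for `z >= 1` and `z α β = p (1-α)(1-β)`:
`E z^G <= (1 + α(z-1))^M (1 + β(z-1))^M'`. Indeed add independent sources (Bernoulli α) on the
bottom and sinks (Bernoulli β) on the left; `G <= G' =` number of sources + number of exits on the
right; weighting by `z^(number of sources)` changes `α` to `α' = αz/(1+α(z-1))`, and for the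
parameters `α', β` the process is stationary (Burke property, a local check as
`α' β = p (1-α')(1-β)`), so the exits on the right are independent Bernoulli β. Averaging over the
geometric `M, M'`: `P(I_k) <= z^(-k) (1-Hα(z-1))^(-L) (1-Hβ(z-1))^(-L) <= z^(-k) ε^(-2L)` if
`θ (z-1)^2 <= (1-ε)^2 z`; we can take `z = 1/θ + 2 - 1.1 θ`, `ε = θ^2/25`.

Lower bound. The columns are cut into `L` segments (one geometric variable each), the rows too. We
look only for copies of `G_L` compatible with the segments (`Valid`): one point in each of the `L^2`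
blocks (column segment `b`, row segment `i`), increasing in `i` in every column segment and
increasing in `b` in every row segment. Order the copies lexicographically (`Better`). If a copy `e`
is not the first copy in the matrix, then some set `R` of its points can be moved to new points of
the matrix, giving a better copy; if `R` is minimal it is connected in the grid graph on the `L^2`
blocks, and (row MIN) either `|R| = 1`, or `|R| = 2` and the move is of one special type (`TypeA`), or
`|R| >= 3`. So by FKG, given that the points of `e` are ones, `e` is the first copy with probability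
at least `∏_F (1 - p^|F|)` over the possible sets `F` of new points (`Bad`; rows FKG, FST, CPL). The
number of these `F` is bounded by explicit increasing functions `n1, n2, n3` of the gaps of `e`
(rows B1N, B2N, RUN, B3N, KAP). The sum over all domains and copies is a sum over all gap vectors
with the weights of INDEPENDENT geometric variables (rows DSJ, AVG, TRF, LOW):
`P(G_L) >= (H^2 p)^(L^2) E kap`, and by Harris' inequality for the gaps (row HAR) the expectation of
the product `kap` of decreasing functions is at least the product of the expectations. The one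
point moves give, two at a time, `E (1-p)^(a(c+c') + a'(c'+c'')) >= 1 - 4θ + 17θ^2 - 763θ^3` (row
TBL), the pairs `1 - θ^2 (1+1/H)^2`, the connected sets `R` with `|R| = r >= 3` give `1 - (144 θ)^r`
(rows KR3, KEX), and there are at most `16^r` of them through a given block (rows WLK, CSM). So
`P(G_L) >= θ^(L^2) (1-4θ+17θ^2-763θ^3)^(L^2/2) (1-2θ)^L (1-θ^2)^(L^2) exp(-4 (2304θ)^3 L^2) (1 + o(1))`
as `H` tends to infinity, while `P(I_k) <= z^(-k) ε^(-2L)`. As
`θ z (1-4θ+17θ^2-763θ^3)^(1/2) (1-θ^2) exp(-4(2304θ)^3) > 1 + θ^2/10`, this is a contradiction for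
large `L` (rows NUM, MID).
-/

set_option autoImplicit false

namespace Pool.Agent.DSW

open Equiv Finset Function Pool.Agent.helper48.PP
open scoped ENNReal Classical

noncomputable section

/-! ## Permutations, minors -/

/-- The grid permutation: position `L b + i` carries the value `L i + b` (`b, i < L`). -/
def grid (L : ℕ) : Perm (Fin (L * L)) :=
  (finProdFinEquiv.symm.trans (Equiv.prodComm (Fin L) (Fin L))).trans finProdFinEquiv

/-- `S` has an `l x l` interval minor. -/
def Minor (l : ℕ) (S : Set (ℕ × ℕ)) : Prop :=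
  ∃ a b c d : Fin l → ℕ, (∀ r, a r ≤ b r) ∧ (∀ r s, r < s → b r < a s) ∧
    (∀ r, c r ≤ d r) ∧ (∀ r s, r < s → d r < c s) ∧
    ∀ r s, ∃ z ∈ S, a r ≤ z.1 ∧ z.1 ≤ b r ∧ c s ≤ z.2 ∧ z.2 ≤ d s

/-- The graph of a permutation. -/
def gra {n : ℕ} (w : Perm (Fin n)) : Set (ℕ × ℕ) := {z | ∃ i : Fin n, z = ((i : ℕ), (w i : ℕ))}

/-- The permutations of length `n` without `l x l` minor. -/
def NM (l n : ℕ) : Finset (Perm (Fin n)) := Finset.univ.filter fun w => ¬ Minor l (gra w)

/-- The dyadic intervals: the node `(i, v)` is the set of the `x` with `x / 2^i = v`. -/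
abbrev Nd (h : ℕ) := Fin (h + 1) × Fin (2 ^ h)

/-- The cells of the `2^h x 2^h` square that are in no pair of dyadic intervals with `Z`. -/
def AF {h : ℕ} (Z : Nd h → Nd h → Prop) : Finset (ℕ × ℕ) :=
  (Finset.range (2 ^ h) ×ˢ Finset.range (2 ^ h)).filter fun z =>
    ∀ u v : Nd h, z.1 / 2 ^ (u.1 : ℕ) = (u.2 : ℕ) → z.2 / 2 ^ (v.1 : ℕ) = (v.2 : ℕ) → ¬ Z u v

/-! ## Random 0-1 matrices -/

/-- The probability of the event `A` for a random subset `S` of `C` with density `p`. -/
def Pr {γ : Type} (C : Finset γ) (p : ℝ) (A : Finset γ → Prop) : ℝ :=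
  ∑ S ∈ C.powerset.filter A, p ^ S.card * (1 - p) ^ (C.card - S.card)

/-- The 0-1 matrix `S` contains the pattern `τ`. -/
def Has {k : ℕ} (τ : Perm (Fin k)) (S : Finset (ℕ × ℕ)) : Prop :=
  ∃ x y : Fin k → ℕ, StrictMono x ∧ StrictMono y ∧ ∀ j, (x j, y (τ j)) ∈ S

/-- No two ones in a line. -/
def GP (S : Finset (ℕ × ℕ)) : Prop := ∀ u ∈ S, ∀ v ∈ S, (u.1 = v.1 ∨ u.2 = v.2) → u = v

/-! ## The Burke map -/

/-- Bernoulli weight. -/
def mu (q : ℝ) (b : Bool) : ℝ := if b then q else 1 - q

/-- The horizontal increment carried up one column: `I` at the bottom, `J` the increments on the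
left of the column, `w` the entries of the column. -/
def hor (I : Bool) (J w : ℕ → Bool) : ℕ → Bool
  | 0 => I
  | y + 1 => !(J y) && (hor I J w y || w y)

/-- The vertical increments on the right of the column. -/
def ver (I : Bool) (J w : ℕ → Bool) (y : ℕ) : Bool := !(hor I J w y) && (J y || w y)

/-- The vertical increments after `x` columns; `I x` is the source below column `x`, `J` are the
sinks, `w x` is column `x` of the matrix. -/
def Js (I : ℕ → Bool) (J : ℕ → Bool) (w : ℕ → ℕ → Bool) : ℕ → ℕ → Bool
  | 0 => J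
  | x + 1 => ver (I x) (Js I J w x) (w x)

/-- Extension by `false`. -/
def exb {n : ℕ} (J : Fin n → Bool) (y : ℕ) : Bool := if h : y < n then J ⟨y, h⟩ else false

/-! ## Copies of the grid compatible with the segments -/

/-- A cell: the block (column segment, row segment), and the two coordinates in it. -/
abbrev Cell (L : ℕ) := (Fin L × Fin L) × (ℕ × ℕ)

/-- The cells of the domain with column segments of lengths `m` and row segments of lengths
`m'`. -/
def Dom {L : ℕ} (m m' : Fin L → ℕ) : Finset (Cell L) :=
  Finset.univ.biUnion fun u : Fin L × Fin L =>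
    {u} ×ˢ (Finset.range (m u.1) ×ˢ Finset.range (m' u.2))

/-- Arrays `e = (s, t)`: the point in block `(b, i)` has coordinates `s b i` and `t i b`. -/
abbrev Arr (L : ℕ) := (Fin L → Fin L → ℕ) × (Fin L → Fin L → ℕ)

/-- The point of `e` in the block `u`. -/
def cellAt {L : ℕ} (e : Arr L) (u : Fin L × Fin L) : Cell L := (u, (e.1 u.1 u.2, e.2 u.2 u.1))

/-- All points of `e`. -/
def cells {L : ℕ} (e : Arr L) : Finset (Cell L) := Finset.univ.image (cellAt e)

/-- `e` is a copy of the grid in the domain, compatible with the segments. -/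
def Valid {L : ℕ} (m m' : Fin L → ℕ) (e : Arr L) : Prop :=
  (∀ b, StrictMono (e.1 b)) ∧ (∀ i, StrictMono (e.2 i)) ∧ (∀ b i, e.1 b i < m b) ∧
    (∀ i b, e.2 i b < m' i)

/-- `e'` is lexicographically smaller than `e`: at the first block `u` (in the order of pairs) where
they differ the point of `e'` is smaller (first coordinate first). -/
def Better {L : ℕ} (e' e : Arr L) : Prop :=
  ∃ u : Fin L × Fin L, (∀ v : Fin L × Fin L, (v.1 < u.1 ∨ (v.1 = u.1 ∧ v.2 < u.2)) →
      cellAt e' v = cellAt e v) ∧
    (e'.1 u.1 u.2 < e.1 u.1 u.2 ∨ (e'.1 u.1 u.2 = e.1 u.1 u.2 ∧ e'.2 u.2 u.1 < e.2 u.2 u.1))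

/-- `e` is the first copy in `S`. -/
def First {L : ℕ} (m m' : Fin L → ℕ) (e : Arr L) (S : Finset (Cell L)) : Prop :=
  cells e ⊆ S ∧ ∀ e', Valid m m' e' → cells e' ⊆ S → ¬ Better e' e

/-- The blocks in which the points of `e` and `e'` differ. -/
def mov {L : ℕ} (e e' : Arr L) : Finset (Fin L × Fin L) :=
  Finset.univ.filter fun u => cellAt e' u ≠ cellAt e u

/-- Adjacent blocks. -/
def Adj {L : ℕ} (u v : Fin L × Fin L) : Prop :=
  (u.1 = v.1 ∧ ((u.2 : ℕ) + 1 = (v.2 : ℕ) ∨ (v.2 : ℕ) + 1 = (u.2 : ℕ))) ∨
    (u.2 = v.2 ∧ ((u.1 : ℕ) + 1 = (v.1 : ℕ) ∨ (v.1 : ℕ) + 1 = (u.1 : ℕ)))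

/-- Connected sets of blocks. -/
def Conn {L : ℕ} (R : Finset (Fin L × Fin L)) : Prop :=
  R.Nonempty ∧ ∀ R' ⊆ R, R'.Nonempty → R' ≠ R → ∃ u ∈ R', ∃ v ∈ R \ R', Adj u v

/-- The special move of two points, in the blocks `(b, i)` and `(b', i)`, `b' = b + 1`: the point in
`(b, i)` goes to the left and at least to the height of the point in `(b', i)`; the point in
`(b', i)` does not go to the left. -/
def TypeA {L : ℕ} (e e' : Arr L) : Prop :=
  ∃ b b' i : Fin L, (b : ℕ) + 1 = (b' : ℕ) ∧ mov e e' = {(b, i), (b', i)} ∧
    e'.1 b i < e.1 b i ∧ e.1 b' i ≤ e'.1 b' i ∧ e.2 i b' ≤ e'.2 i b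

/-- The moves from `e` to a better copy that have to be considered. -/
def Move {L : ℕ} (m m' : Fin L → ℕ) (e e' : Arr L) : Prop :=
  Valid m m' e' ∧ Better e' e ∧ Conn (mov e e') ∧
    ((mov e e').card = 1 ∨ ((mov e e').card = 2 ∧ TypeA e e') ∨ 3 ≤ (mov e e').card)

/-- The sets of new points of the moves. -/
def Bad {L : ℕ} (m m' : Fin L → ℕ) (e : Arr L) : Finset (Finset (Cell L)) :=
  (Dom m m').powerset.filter fun F =>
    ∃ e', Move m m' e e' ∧ F = (mov e e').image (cellAt e')

/-! ## Gaps -/

/-- The position of the point number `i` if the gaps are `g 0, g 1, ...`; `pos g L` is the length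
of the segment. -/
def pos {L : ℕ} (g : Fin (L + 1) → ℕ) (i : ℕ) : ℕ :=
  (∑ j ∈ Finset.univ.filter (fun j : Fin (L + 1) => (j : ℕ) ≤ i), g j) + i

/-- Lengths of the segments. -/
def len {L : ℕ} (a : Fin L → Fin (L + 1) → ℕ) (b : Fin L) : ℕ := pos (a b) L

/-- The array with gaps `a` (column segments) and `c` (row segments). -/
def arr {L : ℕ} (a c : Fin L → Fin (L + 1) → ℕ) : Arr L :=
  (fun b i => pos (a b) (i : ℕ), fun i b => pos (c i) (b : ℕ))

/-- The gaps next to the points in `Q`. -/
def adg {L : ℕ} (Q : Finset (Fin L)) : Finset (Fin (L + 1)) :=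
  Q.image Fin.castSucc ∪ Q.image Fin.succ

/-- Bound for the number of ways to move the points in `Q` in one segment. -/
def bin {L : ℕ} (Q : Finset (Fin L)) (g : Fin (L + 1) → ℕ) : ℕ :=
  ((∑ j ∈ adg Q, g j) + Q.card).choose Q.card

/-- The row of `R` in the column segment `b`. -/
def rw1 {L : ℕ} (R : Finset (Fin L × Fin L)) (b : Fin L) : Finset (Fin L) :=
  Finset.univ.filter fun i => (b, i) ∈ R

/-- The part of `R` in the row segment `i`. -/
def rw2 {L : ℕ} (R : Finset (Fin L × Fin L)) (i : Fin L) : Finset (Fin L) :=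
  Finset.univ.filter fun b => (b, i) ∈ R

/-- Number of the moves of the point in the block `u`. -/
def n1 {L : ℕ} (a c : Fin L → Fin (L + 1) → ℕ) (u : Fin L × Fin L) : ℕ :=
  a u.1 u.2.castSucc * (c u.2 u.1.castSucc + c u.2 u.1.succ + 1) + c u.2 u.1.castSucc

/-- The triples `(b, b', i)` with `b' = b + 1`. -/
def VP (L : ℕ) : Finset (Fin L × Fin L × Fin L) :=
  Finset.univ.filter fun q => (q.1 : ℕ) + 1 = (q.2.1 : ℕ)

/-- Number of the moves of type A of the points in the blocks `(b, i)`, `(b', i)`. -/
def n2 {L : ℕ} (a c : Fin L → Fin (L + 1) → ℕ) (q : Fin L × Fin L × Fin L) : ℕ :=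
  a q.1 q.2.2.castSucc * (a q.2.1 q.2.2.succ + 1) * (c q.2.2 q.2.1.succ + 1).choose 2

/-- Bound for the number of the moves of the points in `R`. -/
def n3 {L : ℕ} (a c : Fin L → Fin (L + 1) → ℕ) (R : Finset (Fin L × Fin L)) : ℕ :=
  (∏ b, bin (rw1 R b) (a b)) * ∏ i, bin (rw2 R i) (c i)

/-- The connected sets with at least three elements. -/
def CN (L : ℕ) : Finset (Finset (Fin L × Fin L)) :=
  Finset.univ.filter fun R => Conn R ∧ 3 ≤ R.card

/-- The lower bound for the probability that a copy with the gaps `a, c` is the first one. -/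
def kap {L : ℕ} (p : ℝ) (a c : Fin L → Fin (L + 1) → ℕ) : ℝ :=
  (∏ u, (1 - p) ^ n1 a c u) * (∏ q ∈ VP L, (1 - p ^ 2) ^ n2 a c q) *
    ∏ R ∈ CN L, (1 - p ^ R.card) ^ n3 a c R

/-! ## Averages over geometric variables -/

/-- The weights of the geometric variable with mean `H`. -/
def wt (H j : ℕ) : ℝ≥0∞ := (H : ℝ≥0∞) ^ j / ((H : ℝ≥0∞) + 1) ^ (j + 1)

/-- The expectation of `f`, a function of independent geometric variables with mean `H`. -/
def Ex {ι : Type} [Fintype ι] (H : ℕ) (f : (ι → ℕ) → ℝ≥0∞) : ℝ≥0∞ :=
  ∑' x : ι → ℕ, (∏ i, wt H (x i)) * f x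

/-- The gaps of the column segments. -/
def ga {L : ℕ} (x : Bool × Fin L × Fin (L + 1) → ℕ) : Fin L → Fin (L + 1) → ℕ :=
  fun b j => x (false, b, j)

/-- The gaps of the row segments. -/
def gc {L : ℕ} (x : Bool × Fin L × Fin (L + 1) → ℕ) : Fin L → Fin (L + 1) → ℕ :=
  fun i j => x (true, i, j)

/-- The average over the domains of the probability of the event `A`. -/
def Pav (L H : ℕ) (p : ℝ) (A : Finset (ℕ × ℕ) → Prop) : ℝ≥0∞ :=
  ∑' m : Fin L → ℕ, ∑' m' : Fin L → ℕ, (∏ b, wt H (m b)) * (∏ i, wt H (m' i)) *
    ENNReal.ofReal (Pr (Finset.range (∑ b, m b) ×ˢ Finset.range (∑ i, m' i)) p A)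

/-- The lower bound for the expectation of `kap`. -/
def lb (L H : ℕ) (θ : ℝ) : ℝ :=
  (1 - 4 * θ + 17 * θ ^ 2 - 763 * θ ^ 3) ^ (L * (L / 2)) * (1 - 2 * θ) ^ L *
    (1 - θ / H) ^ (2 * (L * L)) * (1 - θ ^ 2 * (1 + 1 / (H : ℝ)) ^ 2) ^ (L * L) *
    ∏ R ∈ CN L, (1 - (144 * θ) ^ R.card)

end

end Pool.Agent.DSW
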