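import Pool.Agent.helper71.DSW.SpecC

set_option autoImplicit false

namespace Pool.Agent.DSW

open Equiv Finset Function Pool.Agent.helper48.PP
open scoped ENNReal Classical

/-- the main part of the exponent of the block `(b, i)` -/
def SPL_A {L : ℕ} (x : Bool × Fin L × Fin (L + 1) → ℕ) (b i : Fin L) : ℕ :=
  ga x b i.castSucc * (gc x i b.castSucc + gc x i b.succ)

/-- its extension to all numbers `b` -/
def SPL_A' {L : ℕ} (x : Bool × Fin L × Fin (L + 1) → ℕ) (b : ℕ) (i : Fin L) : ℕ :=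
  if h : b < L then SPL_A x ⟨b, h⟩ i else 0

theorem SPL_A_mono {L : ℕ} (b i : Fin L) :
    Monotone fun x : Bool × Fin L × Fin (L + 1) → ℕ => SPL_A x b i := by
  intro x y h
  unfold SPL_A ga gc
  exact Nat.mul_le_mul (h _) (Nat.add_le_add (h _) (h _))

theorem SPL_A'_mono {L : ℕ} (b : ℕ) (i : Fin L) :
    Monotone fun x : Bool × Fin L × Fin (L + 1) → ℕ => SPL_A' x b i := by
  intro x y h
  unfold SPL_A'
  dsimp only
  split_ifs with hb
  · exact SPL_A_mono _ _ h
  · exact le_rfl

theorem SPL_pair (f : ℕ → ℕ) (m : ℕ) :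
    ∑ b ∈ Finset.range (2 * m), f b = ∑ β ∈ Finset.range m, (f (2 * β) + f (2 * β + 1)) := by
  induction m with
  | zero => simp
  | succ m ih =>
    rw [show 2 * (m + 1) = 2 * m + 1 + 1 by ring, Finset.sum_range_succ, Finset.sum_range_succ,
      ih, Finset.sum_range_succ]
    ring

theorem SPL_expo {L : ℕ} (x : Bool × Fin L × Fin (L + 1) → ℕ) :
    ∑ u, n1 (ga x) (gc x) u =
      (∑ k ∈ (Finset.univ : Finset (Fin L)) ×ˢ Finset.range (L / 2),
        (SPL_A' x (2 * k.2) k.1 + SPL_A' x (2 * k.2 + 1) k.1)) +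
      (∑ i : Fin L, ∑ b ∈ Finset.Ico (2 * (L / 2)) L, SPL_A' x b i) +
      (∑ u : Fin L × Fin L, ga x u.1 u.2.castSucc) +
      ∑ u : Fin L × Fin L, gc x u.2 u.1.castSucc := by
  have h1 : ∀ u : Fin L × Fin L, n1 (ga x) (gc x) u =
      SPL_A x u.1 u.2 + ga x u.1 u.2.castSucc + gc x u.2 u.1.castSucc := by
    intro u
    unfold n1 SPL_A
    ring
  rw [Finset.sum_congr rfl fun u _ => h1 u, Finset.sum_add_distrib, Finset.sum_add_distrib]
  congr 2
  rw [Finset.sum_product, ← Finset.sum_add_distrib, Fintype.sum_prod_type_right]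
  refine Finset.sum_congr rfl fun i _ => ?_
  have h2 : ∑ b : Fin L, SPL_A x b i = ∑ b ∈ Finset.range L, SPL_A' x b i := by
    rw [Finset.sum_range]
    refine Finset.sum_congr rfl fun b _ => ?_
    unfold SPL_A'
    rw [dif_pos b.2]
  have h3 : Finset.range L = Finset.range (2 * (L / 2)) ∪ Finset.Ico (2 * (L / 2)) L := by
    ext b
    simp only [Finset.mem_range, Finset.mem_union, Finset.mem_Ico]
    omega
  have h4 : Disjoint (Finset.range (2 * (L / 2))) (Finset.Ico (2 * (L / 2)) L) := by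
    rw [Finset.disjoint_left]
    intro b hb hb'
    rw [Finset.mem_range] at hb
    rw [Finset.mem_Ico] at hb'
    omega
  rw [h2, h3, Finset.sum_union h4, SPL_pair]

theorem SPL_anti {L : ℕ} {Q : ℝ≥0∞} (hQ : Q ≤ 1) {E : (Bool × Fin L × Fin (L + 1) → ℕ) → ℕ}
    (hE : Monotone E) : Antitone fun x => Q ^ E x :=
  fun _ _ h => pow_le_pow_right_of_le_one' hQ (hE h)

theorem SPL (hHAR : HAR_stmt) (hMAR : MAR_stmt) (hTBL : TBL_stmt) (hSGL : SGL_stmt) :
    SPL_stmt := by
  intro L H θ hH h0 h1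
  have hHr : (1 : ℝ) ≤ (H : ℝ) := by exact_mod_cast hH
  have hp1 : θ / (H : ℝ) ^ 2 ≤ 1 := by
    rw [div_le_one (by positivity)]
    nlinarith
  have hp0 : 0 ≤ θ / (H : ℝ) ^ 2 := by positivity
  have hq0 : 0 ≤ 1 - θ / (H : ℝ) ^ 2 := by linarith
  set q : ℝ := 1 - θ / (H : ℝ) ^ 2 with hq
  set Q : ℝ≥0∞ := ENNReal.ofReal q with hQdef
  have hQ1 : Q ≤ 1 := by
    rw [hQdef, ENNReal.ofReal_le_one]
    linarith
  have hpw : ∀ n : ℕ, ENNReal.ofReal (q ^ n) = Q ^ n := fun n => ENNReal.ofReal_pow hq0 n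
  -- the target function
  have hfun : (fun x : Bool × Fin L × Fin (L + 1) → ℕ =>
      ENNReal.ofReal (∏ u, q ^ n1 (ga x) (gc x) u)) =
      fun x => ((∏ k ∈ (Finset.univ : Finset (Fin L)) ×ˢ Finset.range (L / 2),
        Q ^ (SPL_A' x (2 * k.2) k.1 + SPL_A' x (2 * k.2 + 1) k.1)) *
      (∏ i ∈ (Finset.univ : Finset (Fin L)),
        Q ^ (∑ b ∈ Finset.Ico (2 * (L / 2)) L, SPL_A' x b i))) *
      ((∏ u ∈ (Finset.univ : Finset (Fin L × Fin L)), Q ^ ga x u.1 u.2.castSucc) *
      ∏ u ∈ (Finset.univ : Finset (Fin L × Fin L)), Q ^ gc x u.2 u.1.castSucc) := by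
    funext x
    rw [Finset.prod_pow_eq_pow_sum, hpw, SPL_expo x]
    simp only [Finset.prod_pow_eq_pow_sum]
    rw [← pow_add, ← pow_add, ← pow_add]
    congr 1
    ring
  rw [hfun]
  obtain ⟨har1, har2⟩ := hHAR (Bool × Fin L × Fin (L + 1)) H hH
  -- antitone families
  have a1 : ∀ k : Fin L × ℕ, Antitone fun x : Bool × Fin L × Fin (L + 1) → ℕ =>
      Q ^ (SPL_A' x (2 * k.2) k.1 + SPL_A' x (2 * k.2 + 1) k.1) := fun k =>
    SPL_anti hQ1 ((SPL_A'_mono _ _).add (SPL_A'_mono _ _))
  have a2 : ∀ i : Fin L, Antitone fun x : Bool × Fin L × Fin (L + 1) → ℕ =>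
      Q ^ (∑ b ∈ Finset.Ico (2 * (L / 2)) L, SPL_A' x b i) := fun i =>
    SPL_anti hQ1 fun x y h => Finset.sum_le_sum fun b _ => SPL_A'_mono b i h
  have a3 : ∀ u : Fin L × Fin L, Antitone fun x : Bool × Fin L × Fin (L + 1) → ℕ =>
      Q ^ ga x u.1 u.2.castSucc := fun u => SPL_anti hQ1 fun x y h => h _
  have a4 : ∀ u : Fin L × Fin L, Antitone fun x : Bool × Fin L × Fin (L + 1) → ℕ =>
      Q ^ gc x u.2 u.1.castSucc := fun u => SPL_anti hQ1 fun x y h => h _
  have aprod : ∀ {κ : Type} (K : Finset κ)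
      (f : κ → (Bool × Fin L × Fin (L + 1) → ℕ) → ℝ≥0∞), (∀ k, Antitone (f k)) →
      Antitone fun x => ∏ k ∈ K, f k x := by
    intro κ K f hf x y h
    exact Finset.prod_le_prod' fun k _ => hf k h
  have amul : ∀ {f g : (Bool × Fin L × Fin (L + 1) → ℕ) → ℝ≥0∞}, Antitone f → Antitone g →
      Antitone fun x => f x * g x := by
    intro f g hf hg x y h
    exact mul_le_mul' (hf h) (hg h)
  -- the expectations
  have e1 : ∀ k ∈ (Finset.univ : Finset (Fin L)) ×ˢ Finset.range (L / 2),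
      ENNReal.ofReal (1 - 4 * θ + 17 * θ ^ 2 - 763 * θ ^ 3) ≤
      Ex H fun x : Bool × Fin L × Fin (L + 1) → ℕ =>
        Q ^ (SPL_A' x (2 * k.2) k.1 + SPL_A' x (2 * k.2 + 1) k.1) := by
    rintro ⟨i, β⟩ hk
    rw [Finset.mem_product, Finset.mem_range] at hk
    have hβ : β < L / 2 := hk.2
    have hb1 : 2 * β < L := by omega
    have hb2 : 2 * β + 1 < L := by omega
    set b : Fin L := ⟨2 * β, hb1⟩ with hb
    set b' : Fin L := ⟨2 * β + 1, hb2⟩ with hb'
    let e : Fin 5 → Bool × Fin L × Fin (L + 1) :=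
      ![(false, b, i.castSucc), (false, b', i.castSucc), (true, i, b.castSucc),
        (true, i, b.succ), (true, i, b'.succ)]
    have he : Injective e := by
      intro s t hst
      fin_cases s <;> fin_cases t <;>
        first
        | rfl
        | (exfalso
           simp only [e, hb, hb', Fin.ext_iff, Prod.mk.injEq, Fin.val_castSucc, Fin.val_succ,
             Fin.isValue, Fin.zero_eta, Fin.mk_one, Fin.reduceFinMk, Matrix.cons_val,
             Matrix.cons_val_zero, Matrix.cons_val_one] at hst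
           omega)
        | (exfalso
           simp [e, hb, hb', Fin.ext_iff] at hst)
    have h := hTBL H θ hH h0 h1
    rw [← hMAR _ _ e he H hH] at h
    refine h.trans (le_of_eq ?_)
    congr 1
    funext x
    rw [hpw]
    congr 1
    unfold SPL_A'
    rw [dif_pos hb1, dif_pos hb2]
    unfold SPL_A ga gc
    rfl
  have e2 : ∀ i ∈ (Finset.univ : Finset (Fin L)),
      ENNReal.ofReal (1 - 2 * θ) ≤
      Ex H fun x : Bool × Fin L × Fin (L + 1) → ℕ =>
        Q ^ (∑ b ∈ Finset.Ico (2 * (L / 2)) L, SPL_A' x b i) := by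
    intro i _
    have h := (hSGL H θ hH h0 h1).2
    rcases Nat.even_or_odd L with hL | hL
    · have hIco : Finset.Ico (2 * (L / 2)) L = ∅ := by
        rw [Finset.Ico_eq_empty_iff]
        obtain ⟨r, hr⟩ := hL
        omega
      rw [hIco]
      simp only [Finset.sum_empty, pow_zero]
      have h1' := hMAR (Bool × Fin L × Fin (L + 1)) (Fin 3) 
      -- E 1 = 1 by comparison with `Fin 3`
      obtain ⟨r, hr⟩ := hL
      have hLpos : 0 < L := i.pos
      have hL2 : 2 ≤ L := by omega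
      let e : Fin 3 → Bool × Fin L × Fin (L + 1) :=
        ![(false, i, 0), (true, i, 0), (true, i, Fin.last L)]
      have he : Injective e := by
        intro s t hst
        fin_cases s <;> fin_cases t <;>
          first
          | rfl
          | (exfalso
             simp [e, Fin.ext_iff] at hst
             try omega)
      refine h.trans ?_
      rw [← h1' e he H hH]
      unfold Ex
      refine ENNReal.tsum_le_tsum fun x => ?_
      refine mul_le_mul_right ?_ _
      change ENNReal.ofReal (q ^ _) ≤ 1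
      rw [hpw]
      exact pow_le_one' hQ1 _
    · have hIco : Finset.Ico (2 * (L / 2)) L = {L - 1} := by
        ext b
        rw [Finset.mem_Ico, Finset.mem_singleton]
        obtain ⟨r, hr⟩ := hL
        omega
      have hlt : L - 1 < L := by have := i.pos; omega
      rw [hIco]
      simp only [Finset.sum_singleton]
      set b : Fin L := ⟨L - 1, hlt⟩ with hb
      let e : Fin 3 → Bool × Fin L × Fin (L + 1) :=
        ![(false, b, i.castSucc), (true, i, b.castSucc), (true, i, b.succ)]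
      have he : Injective e := by
        intro s t hst
        fin_cases s <;> fin_cases t <;>
          first
          | rfl
          | (exfalso
             simp [e, hb, Fin.ext_iff] at hst
             try omega)
      rw [← hMAR _ _ e he H hH] at h
      refine h.trans (le_of_eq ?_)
      congr 1
      funext x
      rw [hpw]
      congr 1
      unfold SPL_A'
      rw [dif_pos hlt]
      unfold SPL_A ga gc
      rfl
  have e3 : ∀ u ∈ (Finset.univ : Finset (Fin L × Fin L)),
      ENNReal.ofReal (1 - θ / H) ≤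
      Ex H fun x : Bool × Fin L × Fin (L + 1) → ℕ => Q ^ ga x u.1 u.2.castSucc := by
    intro u _
    have h := (hSGL H θ hH h0 h1).1
    let e : Fin 1 → Bool × Fin L × Fin (L + 1) := fun _ => (false, u.1, u.2.castSucc)
    have he : Injective e := fun s t _ => Subsingleton.elim s t
    rw [← hMAR _ _ e he H hH] at h
    refine h.trans (le_of_eq ?_)
    congr 1
    funext x
    rw [hpw]
    rfl
  have e4 : ∀ u ∈ (Finset.univ : Finset (Fin L × Fin L)),
      ENNReal.ofReal (1 - θ / H) ≤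
      Ex H fun x : Bool × Fin L × Fin (L + 1) → ℕ => Q ^ gc x u.2 u.1.castSucc := by
    intro u _
    have h := (hSGL H θ hH h0 h1).1
    let e : Fin 1 → Bool × Fin L × Fin (L + 1) := fun _ => (true, u.2, u.1.castSucc)
    have he : Injective e := fun s t _ => Subsingleton.elim s t
    rw [← hMAR _ _ e he H hH] at h
    refine h.trans (le_of_eq ?_)
    congr 1
    funext x
    rw [hpw]
    rfl
  -- positivity of the numbers
  have n1' : 0 ≤ 1 - 4 * θ + 17 * θ ^ 2 - 763 * θ ^ 3 := by nlinarith [mul_nonneg h0 h0]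
  have n2' : 0 ≤ 1 - 2 * θ := by linarith
  have n3' : 0 ≤ 1 - θ / (H : ℝ) := by
    have : θ / (H : ℝ) ≤ 1 := by
      rw [div_le_one (by positivity)]
      linarith
    linarith
  -- assemble
  have p1 := (Finset.prod_le_prod' e1).trans
    (har2 _ _ (fun (k : Fin L × ℕ) (x : Bool × Fin L × Fin (L + 1) → ℕ) =>
      Q ^ (SPL_A' x (2 * k.2) k.1 + SPL_A' x (2 * k.2 + 1) k.1)) fun k _ => a1 k)
  have p2 := (Finset.prod_le_prod' e2).trans
    (har2 _ _ (fun (i : Fin L) (x : Bool × Fin L × Fin (L + 1) → ℕ) =>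
      Q ^ (∑ b ∈ Finset.Ico (2 * (L / 2)) L, SPL_A' x b i)) fun k _ => a2 k)
  have p3 := (Finset.prod_le_prod' e3).trans
    (har2 _ _ (fun (u : Fin L × Fin L) (x : Bool × Fin L × Fin (L + 1) → ℕ) =>
      Q ^ ga x u.1 u.2.castSucc) fun k _ => a3 k)
  have p4 := (Finset.prod_le_prod' e4).trans
    (har2 _ _ (fun (u : Fin L × Fin L) (x : Bool × Fin L × Fin (L + 1) → ℕ) =>
      Q ^ gc x u.2 u.1.castSucc) fun k _ => a4 k)
  rw [Finset.prod_const] at p1 p2 p3 p4
  have hc1 : ((Finset.univ : Finset (Fin L)) ×ˢ Finset.range (L / 2)).card = L * (L / 2) := by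
    rw [Finset.card_product, Finset.card_univ, Fintype.card_fin, Finset.card_range]
  have hc2 : (Finset.univ : Finset (Fin L)).card = L := by
    rw [Finset.card_univ, Fintype.card_fin]
  have hc3 : (Finset.univ : Finset (Fin L × Fin L)).card = L * L := by
    rw [Finset.card_univ, Fintype.card_prod, Fintype.card_fin]
  rw [hc1] at p1
  rw [hc2] at p2
  rw [hc3] at p3 p4
  have hl : ENNReal.ofReal ((1 - 4 * θ + 17 * θ ^ 2 - 763 * θ ^ 3) ^ (L * (L / 2)) *
      (1 - 2 * θ) ^ L * (1 - θ / H) ^ (2 * (L * L))) =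
      (ENNReal.ofReal (1 - 4 * θ + 17 * θ ^ 2 - 763 * θ ^ 3) ^ (L * (L / 2)) *
        ENNReal.ofReal (1 - 2 * θ) ^ L) *
      (ENNReal.ofReal (1 - θ / H) ^ (L * L) * ENNReal.ofReal (1 - θ / H) ^ (L * L)) := by
    rw [ENNReal.ofReal_mul (by positivity), ENNReal.ofReal_mul (by positivity),
      ENNReal.ofReal_pow n1', ENNReal.ofReal_pow n2', ENNReal.ofReal_pow n3', two_mul (L * L), pow_add]
  rw [hl]
  refine (mul_le_mul' (mul_le_mul' p1 p2) (mul_le_mul' p3 p4)).trans ?_
  refine (mul_le_mul' (har1 _ _ (aprod _ _ a1) (aprod _ _ a2))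
    (har1 _ _ (aprod _ _ a3) (aprod _ _ a4))).trans ?_
  exact har1 _ _ (amul (aprod _ _ a1) (aprod _ _ a2)) (amul (aprod _ _ a3) (aprod _ _ a4))

end Pool.Agent.DSW
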