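import Pool.Agent.helper71.DSW.SpecC

set_option autoImplicit false

namespace Pool.Agent.DSW

open Equiv Finset Function Pool.Agent.helper48.PP
open scoped ENNReal Classical

theorem UBA_one (hPRD : PRD_stmt) (hGEO : GEO_stmt) (L H : ℕ) (hH : 1 ≤ H) (t ε : ℝ)
    (ht : 0 ≤ t) (hε : 0 < ε) (hHt : H * t ≤ 1 - ε) :
    ∑' m : Fin L → ℕ, (∏ b, wt H (m b)) * ENNReal.ofReal ((1 + t) ^ (∑ b, m b)) ≤
      ENNReal.ofReal (1 / ε) ^ L := by
  have h1 : ∀ m : Fin L → ℕ, (∏ b, wt H (m b)) * ENNReal.ofReal ((1 + t) ^ (∑ b, m b)) =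
      ∏ b, (wt H (m b) * ENNReal.ofReal ((1 + t) ^ (m b))) := by
    intro m
    rw [← Finset.prod_pow_eq_pow_sum, ENNReal.ofReal_prod_of_nonneg fun i _ => by positivity,
      Finset.prod_mul_distrib]
  rw [tsum_congr h1,
    hPRD (Fin L) (fun _ j => wt H j * ENNReal.ofReal ((1 + t) ^ j)), Finset.prod_const,
    Finset.card_univ, Fintype.card_fin]
  refine pow_le_pow_left' ?_ L
  rw [(hGEO H hH).2.2.2.2.2 t ht (by linarith)]
  refine ENNReal.ofReal_le_ofReal ?_
  exact one_div_le_one_div_of_le hε (by linarith)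

theorem UBA (hBUR : BUR_stmt) (hPRD : PRD_stmt) (hGEO : GEO_stmt) : UBA_stmt := by
  intro L k H θ z ε hH hθ0 hθ1 hz hε0 hε1 hmain
  have hHr : (1 : ℝ) ≤ (H : ℝ) := by exact_mod_cast hH
  have hH0 : (0 : ℝ) < (H : ℝ) := by linarith
  have hz1 : (0 : ℝ) < z - 1 := by linarith
  have hz0 : (0 : ℝ) < z := by linarith
  set p : ℝ := θ / (H : ℝ) ^ 2 with hp
  have hp0 : 0 < p := by positivity
  have hp1 : p ≤ 1 := by
    rw [hp, div_le_one (by positivity)]
    nlinarith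
  set α : ℝ := (1 - ε) / (H * (z - 1)) with hα
  have hα0 : 0 < α := div_pos (by linarith) (by positivity)
  have hα1 : α < 1 := by
    rw [hα, div_lt_one (by positivity)]
    nlinarith
  have hHα : H * (α * (z - 1)) = 1 - ε := by
    rw [hα]
    field_simp
  have hden : 0 < z * α + p * (1 - α) := by
    have := mul_pos hp0 (sub_pos.2 hα1)
    positivity
  set β : ℝ := p * (1 - α) / (z * α + p * (1 - α)) with hβ
  have hβ0 : 0 ≤ β := div_nonneg (mul_nonneg hp0.le (by linarith)) hden.le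
  have hβ1 : β ≤ 1 := by
    rw [hβ, div_le_one hden]
    have : 0 < z * α := by positivity
    linarith
  have hrel : z * (α * β) = p * ((1 - α) * (1 - β)) := by
    have h2 : β * (z * α + p * (1 - α)) = p * (1 - α) := by
      rw [hβ, div_mul_cancel₀ _ hden.ne']
    nlinarith [h2]
  have hβ2 : β ≤ p / (z * α) := by
    have h3 : 0 < z * α := by positivity
    rw [le_div_iff₀ h3]
    have h4 : β * (z * α) = p * (1 - α) * (1 - β) := by nlinarith [hrel]
    rw [h4]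
    have h5 : (1 - α) * (1 - β) ≤ 1 := by nlinarith
    nlinarith [hp0]
  have hHβ : H * (β * (z - 1)) ≤ 1 - ε := by
    have h6 : H * (p / (z * α) * (z - 1)) = θ * (z - 1) ^ 2 / (z * (1 - ε)) := by
      have h1ε : (1 - ε) ≠ 0 := by linarith
      have hz1' : z - 1 ≠ 0 := hz1.ne'
      rw [hp, hα]
      field_simp
    have h7 : H * (β * (z - 1)) ≤ H * (p / (z * α) * (z - 1)) := by
      refine mul_le_mul_of_nonneg_left ?_ hH0.le
      exact mul_le_mul_of_nonneg_right hβ2 hz1.le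
    refine h7.trans ?_
    rw [h6, div_le_iff₀ (mul_pos hz0 (by linarith))]
    nlinarith [hmain]
  have hB := fun M M' => hBUR M M' k p z α β hp0.le hp1 (by linarith) hα0.le hα1.le hβ0 hβ1 hrel
  have hs0 : 0 ≤ α * (z - 1) := by positivity
  have ht0 : 0 ≤ β * (z - 1) := mul_nonneg hβ0 hz1.le
  have hPr : ∀ M M' : ℕ, ENNReal.ofReal
      (Pr (Finset.range M ×ˢ Finset.range M') p (Has (1 : Perm (Fin k)))) ≤
      ENNReal.ofReal ((1 / z) ^ k) * (ENNReal.ofReal ((1 + α * (z - 1)) ^ M) *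
        ENNReal.ofReal ((1 + β * (z - 1)) ^ M')) := by
    intro M M'
    rw [← ENNReal.ofReal_mul (by positivity), ← ENNReal.ofReal_mul (by positivity)]
    refine ENNReal.ofReal_le_ofReal ?_
    have h8 := hB M M'
    have h9 : (1 / z) ^ k * (z ^ k *
        Pr (Finset.range M ×ˢ Finset.range M') p (Has (1 : Perm (Fin k)))) ≤
        (1 / z) ^ k * ((1 + α * (z - 1)) ^ M * (1 + β * (z - 1)) ^ M') :=
      mul_le_mul_of_nonneg_left h8 (by positivity)
    rw [← mul_assoc, ← mul_pow, one_div_mul_cancel hz0.ne', one_pow, one_mul] at h9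
    exact h9
  unfold Pav
  have hstep : ∀ m m' : Fin L → ℕ, (∏ b, wt H (m b)) * (∏ i, wt H (m' i)) *
      ENNReal.ofReal (Pr (Finset.range (∑ b, m b) ×ˢ Finset.range (∑ i, m' i)) p
        (Has (1 : Perm (Fin k)))) ≤
      (ENNReal.ofReal ((1 / z) ^ k) * ((∏ b, wt H (m b)) *
        ENNReal.ofReal ((1 + α * (z - 1)) ^ (∑ b, m b)))) *
      ((∏ i, wt H (m' i)) * ENNReal.ofReal ((1 + β * (z - 1)) ^ (∑ i, m' i))) := by
    intro m m'
    refine (mul_le_mul_right (hPr _ _) _).trans (le_of_eq ?_)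
    ring
  calc ∑' m : Fin L → ℕ, ∑' m' : Fin L → ℕ, (∏ b, wt H (m b)) * (∏ i, wt H (m' i)) *
      ENNReal.ofReal (Pr (Finset.range (∑ b, m b) ×ˢ Finset.range (∑ i, m' i)) p
        (Has (1 : Perm (Fin k))))
      ≤ ∑' m : Fin L → ℕ, ∑' m' : Fin L → ℕ, (ENNReal.ofReal ((1 / z) ^ k) *
        ((∏ b, wt H (m b)) * ENNReal.ofReal ((1 + α * (z - 1)) ^ (∑ b, m b)))) *
      ((∏ i, wt H (m' i)) * ENNReal.ofReal ((1 + β * (z - 1)) ^ (∑ i, m' i))) :=
        ENNReal.tsum_le_tsum fun m => ENNReal.tsum_le_tsum fun m' => hstep m m'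
    _ = ENNReal.ofReal ((1 / z) ^ k) *
        (∑' m : Fin L → ℕ, (∏ b, wt H (m b)) *
          ENNReal.ofReal ((1 + α * (z - 1)) ^ (∑ b, m b))) *
        ∑' m' : Fin L → ℕ, (∏ i, wt H (m' i)) *
          ENNReal.ofReal ((1 + β * (z - 1)) ^ (∑ i, m' i)) := by
        simp only [ENNReal.tsum_mul_left, ENNReal.tsum_mul_right]
    _ ≤ ENNReal.ofReal ((1 / z) ^ k) * ENNReal.ofReal (1 / ε) ^ L * ENNReal.ofReal (1 / ε) ^ L :=
        mul_le_mul' (mul_le_mul' le_rfl
          (UBA_one hPRD hGEO L H hH _ ε hs0 hε0 hHα.le))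
          (UBA_one hPRD hGEO L H hH _ ε ht0 hε0 hHβ)
    _ = ENNReal.ofReal ((1 / z) ^ k * (1 / ε) ^ (2 * L)) := by
        rw [mul_assoc, ← pow_add, ← two_mul, ← ENNReal.ofReal_pow (by positivity),
          ← ENNReal.ofReal_mul (by positivity)]

end Pool.Agent.DSW
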