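import Pool.Agent.helper92.DSW.POS
import Pool.Agent.helper85.DSW.WTL
import Pool.Agent.helper53.DSW.TOT
import Pool.Agent.helper50.DSW.DSJ
import Pool.Agent.helper6.DSW.PRL
import Pool.Agent.helper62.DSW.TRF
import Pool.Agent.helper71.DSW.AVG
import Pool.Agent.helper56.DSW.B1N
import Pool.Agent.helper75.DSW.B2N
import Pool.Agent.helper90.DSW.RUN
import Pool.Agent.helper72.DSW.B3N
import Pool.Agent.helper62.DSW.GEO
import Pool.Agent.helper23.DSW.BER
import Pool.Agent.helper22.DSW.CEL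
import Pool.Agent.helper8.DSW.ITR
import Pool.Agent.helper62.DSW.PTH
import Pool.Agent.helper23.DSW.PRB
import Pool.Agent.helper62.DSW.BUR
import Pool.Agent.helper66.DSW.SOR
import Pool.Agent.helper90.DSW.PIM
import Pool.Agent.helper16.DSW.CNT
import Pool.Agent.helper95.DSW.WLK
import Pool.Agent.helper83.DSW.CSM
import Pool.Agent.helper72.DSW.CUT
import Pool.Agent.helper16.DSW.DSU
import Pool.Agent.helper6.DSW.DYA
import Pool.Agent.helper23.DSW.LBL
import Pool.Agent.helper16.DSW.EXF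
import Pool.Agent.helper90.DSW.INC
import Pool.Agent.helper23.DSW.GRM
import Pool.Agent.helper14.DSW.SKW
import Pool.Agent.helper66.DSW.RNM
import Pool.Agent.helper16.DSW.GRO
import Pool.Agent.helper95.DSW.LOG
import Pool.Agent.helper85.DSW.FIA
import Pool.Agent.helper56.DSW.FKG
import Pool.Agent.helper23.DSW.FS1
import Pool.Agent.helper76.DSW.MIN
import Pool.Agent.helper53.DSW.FST
import Pool.Agent.helper23.DSW.GPB
import Pool.Agent.helper32.DSW.PRD
import Pool.Agent.helper41.DSW.GPA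
import Pool.Agent.helper54.DSW.GPC
import Pool.Agent.helper84.DSW.HAR
import Pool.Agent.helper52.DSW.KAP
import Pool.Agent.helper38.DSW.MAR
import Pool.Agent.helper77.DSW.TBL
import Pool.Agent.helper32.DSW.SGL
import Pool.Agent.helper71.DSW.SPL
import Pool.Agent.helper85.DSW.KR2
import Pool.Agent.helper48.DSW.KR3
import Pool.Agent.helper98.DSW.KEX
import Pool.Agent.helper23.DSW.LNK
import Pool.Agent.helper23.DSW.LOW
import Pool.Agent.helper71.DSW.UBA
import Pool.Agent.helper72.DSW.PVL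
import Pool.Agent.helper50.DSW.NU1
import Pool.Agent.helper90.DSW.NU2
import Pool.Agent.helper45.DSW.MID
import Pool.Agent.helper98.DSW.TOP

/-!
# Two patterns that switch places twice: assembly
-/

set_option autoImplicit false

namespace Pool.Agent.DSW

open Equiv Finset Function Pool.Agent.helper48.PP

theorem fPOS : POS_stmt := POS
theorem fWTL : WTL_stmt := WTL fPOS
theorem fTOT : TOT_stmt := TOT
theorem fDSJ : DSJ_stmt := DSJ fTOT
theorem fPRL : PRL_stmt := PRL
theorem fTRF : TRF_stmt := TRF fPRL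
theorem fAVG : AVG_stmt := AVG fWTL fPOS fDSJ fTRF
theorem fB1N : B1N_stmt := B1N fPOS
theorem fB2N : B2N_stmt := B2N fPOS
theorem fRUN : RUN_stmt := RUN fPOS
theorem fB3N : B3N_stmt := B3N fRUN fPOS
theorem fGEO : GEO_stmt := GEO
theorem fBER : BER_stmt := BER fGEO
theorem fCEL : CEL_stmt := CEL
theorem fITR : ITR_stmt := ITR fCEL
theorem fPTH : PTH_stmt := PTH
theorem fPRB : PRB_stmt := PRB
theorem fBUR : BUR_stmt := BUR fITR fPTH fPRB
theorem fSOR : SOR_stmt := SOR
theorem fPIM : PIM_stmt := PIM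
theorem fCNT : CNT_stmt := CNT fSOR fPIM
theorem fWLK : WLK_stmt := WLK
theorem fCSM : CSM_stmt := CSM fWLK
theorem fCUT : CUT_stmt := CUT
theorem fDSU : DSU_stmt := DSU
theorem fDYA : DYA_stmt := DYA
theorem fLBL : LBL_stmt := LBL
theorem fEXF : EXF_stmt := EXF fLBL
theorem fINC : INC_stmt := INC
theorem fGRM : GRM_stmt := GRM
theorem fSKW : SKW_stmt := SKW
theorem fRNM : RNM_stmt := RNM fDYA
theorem fGRO : GRO_stmt := GRO
theorem fLOG : LOG_stmt := LOG
theorem fFIA : FIA_stmt := FIA fINC fGRM fSKW fRNM fEXF fCNT fDSU fGRO fLOG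
theorem fFKG : FKG_stmt := FKG
theorem fFS1 : FS1_stmt := FS1
theorem fMIN : MIN_stmt := MIN fCUT
theorem fFST : FST_stmt := FST fFKG fMIN fTOT
theorem fGPB : GPB_stmt := GPB fPRL
theorem fPRD : PRD_stmt := PRD
theorem fGPA : GPA_stmt := GPA fGPB fPRD fGEO
theorem fGPC : GPC_stmt := GPC
theorem fHAR : HAR_stmt := HAR fGEO
theorem fKAP : KAP_stmt := KAP fB1N fB2N fB3N
theorem fMAR : MAR_stmt := MAR fPRD fGEO
theorem fTBL : TBL_stmt := TBL fPRD fGEO
theorem fSGL : SGL_stmt := SGL fPRD fGEO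
theorem fSPL : SPL_stmt := SPL fHAR fMAR fTBL fSGL
theorem fKR2 : KR2_stmt := KR2 fPRD fGEO
theorem fKR3 : KR3_stmt := KR3 fPRD fGEO
theorem fKEX : KEX_stmt := KEX fHAR fSPL fKR2 fKR3 fBER fPRD fGEO
theorem fLNK : LNK_stmt := LNK fGPC
theorem fLOW : LOW_stmt := LOW fAVG fFST fKAP fPOS
theorem fUBA : UBA_stmt := UBA fBUR fPRD fGEO
theorem fPVL : PVL_stmt := PVL fLNK
theorem fNU1 : NU1_stmt := NU1
theorem fNU2 : NU2_stmt := NU2 fNU1
theorem fMID : MID_stmt := MID fLOW fKEX fCSM fUBA fGPA fPVL fNU1 fNU2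
theorem fTOP : TOP_stmt := TOP fFIA fFS1 fMID

end Pool.Agent.DSW
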