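import Pool.Agent.helper71.DSW.Defs

/-!
# Project dsw, block A: the count for large `n`

Each row proves one of the statements `XX_stmt`: file `Pool/Agent/<seat>/DSW/XX.lean`,
`import Pool.Agent.helper71.DSW.SpecA`, `namespace Pool.Agent.DSW`, the same open lines as here,
auxiliary lemmas prefixed `XX_`. Other rows only as hypotheses. Library: `Pool.Agent.helper48.PP`
(`Contains`, `avCount`, `avCount_eq`, `avCount_succ`, `SkewIndec`, `not_contains_of_lt`, ...).
-/

set_option autoImplicit false

namespace Pool.Agent.DSW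

open Equiv Finset Function Pool.Agent.helper48.PP
open scoped ENNReal Classical

/-- `INC` (short to medium). Upper bound for the increasing pattern of length `k + 1`.
For `w` without increasing subsequence of length `k + 1` let `c i < k` be the largest `j` such that
there is an increasing subsequence with `j + 1` elements (`f : Fin (j+1) → Fin n` strictly
increasing, `w ∘ f` strictly increasing) that ends at `i`; `j < k`, otherwise `w` contains
`(1 : Perm (Fin (k+1)))` (restrict `f`). If `i < i'` and `w i < w i'` then `c i < c i'`: so in a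
colour class `w` is decreasing. Then `w` is determined by `c` and `c ∘ w⁻¹` (both are functions
`Fin n → Fin k`, so there are at most `k^n * k^n` permutations): if `(w, c)`, `(w', c')` have
`c = c'` and `c ∘ w⁻¹ = c' ∘ w'⁻¹`, then for each colour `w` and `w'` are decreasing bijections of
the same set of positions onto the same set of values, so they agree (e.g. strong induction: the
smallest position where they differ; or: for a position `i` of colour `q`, the number of positions of
colour `q` to the left of `i` is the number of values of colour `q` above `w i`, also above `w' i`).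
`k = 0`: the pattern has length one, there is an avoider only for `n = 0`. -/
def INC_stmt : Prop := ∀ k n : ℕ, avCount n (1 : Perm (Fin (k + 1))) ≤ (k * k) ^ n

/-- `GRM` (short). (1) If `f` is a copy of `grid L` in `w`, take for the column intervals
`[f (L b), f (L b + L - 1)]` (`b < L`) and for the row intervals
`[w (f x), w (f y)]` with `x`, `y` the positions where `grid L` has the values `L i`, `L i + L - 1`
(`i < L`). The box `(b, i)` contains the point at the position `f (L b + i)`, whose value in the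
pattern is `L i + b`. (2) A minor `L x L` gives a minor `l x l` for `l ≤ L` (restrict to the first
`l` intervals), so the permutations in `NM l n` avoid `grid L`. Use `finProdFinEquiv`:
`finProdFinEquiv (b, i) = i + L * b`. -/
def GRM_stmt : Prop :=
  (∀ (L n : ℕ) (w : Perm (Fin n)), Contains w (grid L) → Minor L (gra w)) ∧
  (∀ l L n : ℕ, l ≤ L → (NM l n).card ≤ avCount n (grid L))

/-- `SKW` (short). `grid L` (`L ≥ 2`) begins with its smallest entry, so it is `SkewIndec` (for a cut
`c` take `i = 0`, `j = c`); use `avCount_monotone`. -/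
def SKW_stmt : Prop := ∀ L : ℕ, 2 ≤ L → Monotone fun n => avCount n (grid L)

/-- `DYA` (short to medium). The smallest dyadic intervals containing disjoint intervals are
different. For `r` let `i` be the smallest number with `a r / 2^i = b r / 2^i` (it exists and is
`≤ h`, as `a r / 2^h = b r / 2^h = 0`), `ρ r = (i, a r / 2^i)`. Monotonicity of division gives the last
claim. Injective: let `r < s` have the same `(i, v)`. If `i = 0`, then `b r = a r = v = a s`,
contradiction. If `i ≥ 1`: `a r / 2^(i-1)` and `b r / 2^(i-1)` are different and both give `v` after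
division by 2, so they are `2v` and `2v+1`; in the same way `a s / 2^(i-1) = 2v`; but `b r < a s`
gives `2v + 1 ≤ 2v`, contradiction. -/
def DYA_stmt : Prop := ∀ (h l : ℕ) (a b : Fin l → ℕ), (∀ r, a r ≤ b r) →
  (∀ r s, r < s → b r < a s) → (∀ r, b r < 2 ^ h) →
  ∃ ρ : Fin l → Nd h, Injective ρ ∧
    ∀ r x, a r ≤ x → x ≤ b r → x / 2 ^ ((ρ r).1 : ℕ) = ((ρ r).2 : ℕ)

/-- `RNM` (short; hypothesis `DYA_stmt`). Let `a b c d` be a minor of `AF Z`. Every block `(r, s)`
has a point of `AF Z`, with coordinates `< 2^h`; replace `b r` by `min (b r) (2^h - 1)`, `d s` by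
`min (d s) (2^h - 1)` (the intervals stay nonempty, the points of `AF Z` stay). Let `ρ`, `κ` be given
by `DYA` for the columns and the rows; by hypothesis `Z (ρ r) (κ s)` for some `r, s`. The point `z` in
the block `(r, s)` satisfies `z.1 / 2^(ρ r).1 = (ρ r).2`, `z.2 / 2^(κ s).1 = (κ s).2`, which
contradicts the definition of `AF`. (If `l = 0` the hypothesis on `Z` is false.) -/
def RNM_stmt : Prop := ∀ (h l : ℕ) (Z : Nd h → Nd h → Prop),
  (∀ ρ κ : Fin l → Nd h, Injective ρ → Injective κ → ∃ r s, Z (ρ r) (κ s)) →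
  ¬ Minor l ((AF Z : Finset (ℕ × ℕ)) : Set (ℕ × ℕ))

/-- `LBL` (short). Counting the labelings that are not 0 on a given set (`Fintype.piFinset`:
`Q - 1` choices for `a ∈ P`, `Q` choices for the other `a`). -/
def LBL_stmt : Prop := ∀ (α : Type) [Fintype α] [DecidableEq α] (Q : ℕ) (P : Finset α), 1 ≤ Q →
  (Finset.univ.filter fun F : α → Fin Q => ∀ a ∈ P, ((F a : ℕ)) ≠ 0).card * Q ^ P.card =
    (Q - 1) ^ P.card * Q ^ Fintype.card α

/-- `EXF` (medium; hypothesis `LBL_stmt`). Existence of the labels. Let `Q = (h+1)^2 ≥ 4`,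
`l = 3(h+1)^3`, `n = (h+1) 2^h` the number of nodes, and count the labelings
`F : Nd h × Nd h → Fin Q`, `Z u v := (F (u, v) = 0)`; there are `T = Q^(n^2)` of them.
(i) For `x, y < 2^h` the pairs `(u, v)` with `x / 2^u.1 = u.2`, `y / 2^v.1 = v.2` are
`Q = (h+1)^2` different pairs (one node for every level). So `(x, y) ∈ AF Z` for
`T (1 - 1/Q)^Q ≥ T/4` labelings (`(1 - 1/Q)^Q` is increasing; or `(1 - 1/Q)^Q ≥ 1/4` from
`((Q-1)/Q)^Q`, e.g. Bernoulli `(1 - 1/Q)^(Q/2) ≥ 1/2` as a real power, or `(1+1/(Q-1))^Q ≤ 4`).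
So the sum of `|AF Z|` over all labelings is at least `4^h T / 4`.
(ii) For injective `ρ, κ : Fin l → Nd h` the `l^2` pairs `(ρ r, κ s)` are different; all of them have
label `≠ 0` for `T (1 - 1/Q)^(l^2) ≤ T exp(-l^2/Q) = T exp(-3(h+1) l)` labelings. There are at most
`n^(2l) ≤ 4^(2hl) ≤ exp(2.8 h l)` pairs `(ρ, κ)` (`h + 1 ≤ 2^h`, `log 2 < 0.7`). So at most
`T exp(-3l) ≤ T/8` labelings are bad (some `(ρ, κ)` without 0), `exp(-3) < 1/8`.
(iii) The bad labelings contribute at most `4^h T / 8` to the sum in (i), so the good ones contribute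
at least `4^h T / 8`: some good labeling has `8 |AF Z| ≥ 4^h`. -/
def EXF_stmt : Prop := ∀ h : ℕ, 1 ≤ h → ∃ Z : Nd h → Nd h → Prop,
  (∀ ρ κ : Fin (3 * (h + 1) ^ 3) → Nd h, Injective ρ → Injective κ → ∃ r s, Z (ρ r) (κ s)) ∧
  2 ^ h * 2 ^ h ≤ 8 * (AF Z).card

/-- `SOR` (short to medium). A set of `n` points as a permutation with multiplicities. Let `e₁` be
the increasing enumeration of `S` for the order (first coordinate, second coordinate) and `e₂` that
for the order (second coordinate, first coordinate) (both `Fin n ≃ S`; e.g. `Finset.orderIsoOfFin`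
for the image of `S` in `ℕ ×ₗ ℕ`). Put `X r = (e₁ r).1`, `Y v = (e₂ v).2`, `w r = e₂⁻¹ (e₁ r)`. -/
def SOR_stmt : Prop := ∀ (n : ℕ) (S : Finset (ℕ × ℕ)), S.card = n →
  ∃ (w : Perm (Fin n)) (X Y : Fin n → ℕ), Monotone X ∧ Monotone Y ∧
    S = Finset.univ.image (fun r => (X r, Y (w r))) ∧
    (∀ r r', r < r' → X r = X r' → w r < w r') ∧
    (∀ r r', w r < w r' → Y (w r) = Y (w r') → r < r')

/-- `PIM` (short to medium). Let `a b c d` be a `3l x 3l` minor of `gra w`; all the intervals contain
positions (values) of `w`, shrink them to positions `< n` (every box contains a point of `w`, so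
`a r < n`; replace `b r` by `min (b r) (n-1)`). New column intervals, `r < l`:
`[X (a (3r)), X (b (3r))]`. They are in order: if `X (b (3r)) = X (a (3r+3))` (`≤` by
monotonicity), then `X` is constant on the intervals number `3r+1` and `3r+2`, so `w` is increasing
on the union of these two intervals; but the box (column interval `3r+1`, row interval `1`) contains
a point of `w` and the box (column interval `3r+2`, row interval `0`) too: a contradiction (here
`l ≥ 1` is used, there are at least two row intervals). The same for the rows with `w⁻¹`, `Y`. The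
box number `(r, s)` contains `(X i, Y (w i))` for the point `(i, w i)` in the old box
`(3r, 3s)`. -/
def PIM_stmt : Prop := ∀ (n l : ℕ) (A : Set (ℕ × ℕ)) (w : Perm (Fin n)) (X Y : Fin n → ℕ),
  1 ≤ l → Monotone X → Monotone Y → (∀ r, (X r, Y (w r)) ∈ A) →
  (∀ r r', r < r' → X r = X r' → w r < w r') →
  (∀ r r', w r < w r' → Y (w r) = Y (w r') → r < r') →
  Minor (3 * l) (gra w) → Minor l A

/-- `CNT` (medium; hypotheses `SOR_stmt`, `PIM_stmt`). For every `S ⊆ A` with `N` elements choose
`(w, X, Y)` by `SOR`; `w ∈ NM (3 l) N` by `PIM`; `S` is determined by `(w, X, Y)`, and there are at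
most `4^N` increasing `X : Fin N → ℕ` with values `< N` (the set of the `X r + r`, `r < N`, is a
subset of `range (2N)` that determines `X`), the same for `Y`. So
`C(|A|, N) ≤ |NM (3 l) N| * 16^N`. On the other hand `m^N ≤ N^N C(m, N)` for `N ≤ m` (as
`(m - i)/(N - i) ≥ m/N`), so with `m = |A|`, `8m ≥ N^2`:
`N^N N^N ≤ (8m)^N ≤ 8^N N^N C(m, N)`, i.e. `N^N ≤ 8^N C(m, N)` (if `m < N`, then `N^2 ≤ 8m < 8N`,
`N < 8`, and `N^N ≤ 128^N * |NM|` is clear as `NM (3l) N` contains the identity (a `3 x 3` minor,
even a `2 x 2` minor, has a descent) — or note that `m ≤ N`, `N ≤ 7`, `N^N ≤ 128^N`). -/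
def CNT_stmt : Prop := ∀ (N l : ℕ) (A : Finset (ℕ × ℕ)),
  A ⊆ Finset.range N ×ˢ Finset.range N → N * N ≤ 8 * A.card → 1 ≤ l →
  ¬ Minor l (A : Set (ℕ × ℕ)) → N ^ N ≤ 128 ^ N * (NM (3 * l) N).card

/-- `DSU` (medium). Direct sums of `T` permutations of length `N`: for `π : Fin T → Perm (Fin N)` let
`w = (finProdFinEquiv.symm.trans (Equiv.prodShear (Equiv.refl _) π)).trans finProdFinEquiv`, i.e.
position `j + N t` carries the value `π t j + N t`; `π ↦ w` is injective. Suppose all `π t` are in
`NM l N` and `a b c d` is an `(l+2) x (l+2)` minor of `gra w`. Let `P` be a point of `w` in the box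
(first column interval, last row interval) and `P'` one in the box (last, first): `P` is to the left
and above `P'` (`l + 2 ≥ 2`), so they are in the same summand `t` (two points in different summands
are increasing). The column intervals number `1, ..., l` lie strictly between the positions of `P`
and `P'`, the row intervals number `1, ..., l` strictly between the values of `P'` and `P`; so all
of them lie in `[N t, N t + N)`, and after subtraction of `N t` they give an `l x l` minor of
`gra (π t)`: contradiction. -/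
def DSU_stmt : Prop := ∀ N T l : ℕ, (NM l N).card ^ T ≤ (NM (l + 2) (T * N)).card

/-- `GRO` (short to medium). Write `n = N q + r`, `r < N`, `q = n / N`. If `A = 0`: for `n ≥ 1` the left
side is `0`, and `M ≥ 1` (as `0 < N^N`). If `A ≥ 1`: over the reals `M ≥ (N/128)^N`,
`β := N/(128 A) > 1`, `M^q ≥ (A β)^(N q) = A^(Nq) β^(N q)`, `A^n ≤ A^(N q) A^N`, and
`β^(N q) > A^N` for `q` large. -/
def GRO_stmt : Prop := ∀ N A M : ℕ, 0 < N → 128 * A < N → N ^ N ≤ 128 ^ N * M →
  ∃ n₀, ∀ n, n₀ ≤ n → A ^ n < M ^ (n / N)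

/-- `LOG` (short to medium). Take `h = 4 * Nat.log 2 L + 12`: `L < 2^(Nat.log 2 L + 1)` gives
`128 L^4 < 2^7 * 2^(4 log L + 4) ≤ 2^h`; and `9 (h+1)^3 + 2 ≤ L` for large `L`, e.g. because with
`q = Nat.log 2 L`, `L ≥ 2^q` and `9 (4q + 13)^3 + 2 ≤ 2^q` for large `q` (and `q` tends to
infinity with `L`). -/
def LOG_stmt : Prop := ∃ L₀ : ℕ, ∀ L, L₀ ≤ L → ∃ h : ℕ, 1 ≤ h ∧ 9 * (h + 1) ^ 3 + 2 ≤ L ∧
  128 * (L * L) ^ 2 < 2 ^ h

/-- `FIA` (short; hypotheses `INC_stmt`, `GRM_stmt`, `SKW_stmt`, `RNM_stmt`, `EXF_stmt`,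
`CNT_stmt`, `DSU_stmt`, `GRO_stmt`, `LOG_stmt`). For `L ≥ max L₀ 2` take `h` from `LOG`, `N = 2^h`,
`l = 3(h+1)^3`, `Z` from `EXF`, `A = AF Z`; `RNM`: `A` has no `l x l` minor; `CNT`:
`N^N ≤ 128^N M` with `M = |NM (3l) N|`; for `n` and `q = n / N`:
`M^q ≤ |NM (3l+2) (q N)| ≤ avCount (q N) (grid L) ≤ avCount n (grid L)` (`DSU`; `GRM`, as
`3l + 2 = 9(h+1)^3 + 2 ≤ L`; `SKW`, as `q N ≤ n`). And `avCount n 1 ≤ ((L*L-2)*(L*L-2))^n` (`INC` with
`k + 1 = L*L - 1`), `128 (L*L-2)*(L*L-2) < N`; `GRO`. -/
def FIA_stmt : Prop := ∃ L₀ : ℕ, ∀ L, L₀ ≤ L → ∃ n₀, ∀ n, n₀ ≤ n →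
  avCount n (1 : Perm (Fin (L * L - 1))) < avCount n (grid L)

/-- `FS1` (short). For `k < l`: every permutation of length `k` avoids `τ` (`not_contains_of_lt`), and
the identity contains the pattern `1` of length `k` (`f = id`). -/
def FS1_stmt : Prop := ∀ (k l : ℕ) (τ : Perm (Fin l)), k < l →
  avCount k (1 : Perm (Fin k)) < avCount k τ ∧
  ∀ n, n < k → avCount n (1 : Perm (Fin k)) = avCount n τ

end Pool.Agent.DSW
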