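import Pool.Agent.helper71.DSW.SpecA
import Pool.Agent.helper71.DSW.SpecB

/-!
# Project dsw, block C: averages over geometric variables, numbers, assembly

Each row proves one of the statements `XX_stmt`: file `Pool/Agent/<seat>/DSW/XX.lean`,
`import Pool.Agent.helper71.DSW.SpecC`, `namespace Pool.Agent.DSW`, the same open lines as here,
auxiliary lemmas prefixed `XX_`. Other rows only as hypotheses.
-/

set_option autoImplicit false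

namespace Pool.Agent.DSW

open Equiv Finset Function Pool.Agent.helper48.PP
open scoped ENNReal Classical

noncomputable section

/-! ## Tools -/

/-- `PRD` (short to medium). Product rule for sums over `ι → ℕ` in `ℝ≥0∞`: induction on the finite
type (`Fintype.induction_empty_option`, or `Fin n` with `Fin.consEquiv` / `Fin.insertNthEquiv` and
`ENNReal.tsum_prod`, `ENNReal.tsum_mul_left`). -/
def PRD_stmt : Prop := ∀ (ι : Type) [Fintype ι] (g : ι → ℕ → ℝ≥0∞),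
  ∑' x : ι → ℕ, ∏ i, g i (x i) = ∏ i, ∑' j, g i j

/-- `GEO` (short to medium). Moments of the geometric weights, `H ≥ 1` (`wt H j = H^j/(H+1)^(j+1)`).
With `x = H/(H+1)`: `∑ x^j = H + 1`; `∑ wt * C(j, r) = H^r` (for `r = 0, 1, 2, 3`; e.g. the derivatives
of the geometric series, `tsum_choose_mul_geometric_of_norm_lt_one`), `j^2 = 2 C(j,2) + j`,
`j^3 = 6 C(j,3) + 6 C(j,2) + j`, `C(j+1,2) = C(j,2) + j`; and
`∑ wt (1+t)^j = (1/(H+1)) ∑ (H(1+t)/(H+1))^j = 1/(1 - H t)`. -/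
def GEO_stmt : Prop := ∀ H : ℕ, 1 ≤ H →
  (∑' j, wt H j = 1) ∧ (∑' j : ℕ, wt H j * (j : ℝ≥0∞) = H) ∧
  (∑' j : ℕ, wt H j * (j : ℝ≥0∞) ^ 2 = 2 * (H : ℝ≥0∞) ^ 2 + H) ∧
  (∑' j : ℕ, wt H j * (j : ℝ≥0∞) ^ 3 = 6 * (H : ℝ≥0∞) ^ 3 + 6 * (H : ℝ≥0∞) ^ 2 + H) ∧
  (∑' j : ℕ, wt H j * ((j + 1).choose 2 : ℕ) = (H : ℝ≥0∞) ^ 2 + H) ∧
  (∀ t : ℝ, 0 ≤ t → H * t < 1 →
    ∑' j : ℕ, wt H j * ENNReal.ofReal ((1 + t) ^ j) = ENNReal.ofReal (1 / (1 - H * t)))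

/-- `MAR` (short to medium; hypotheses `PRD_stmt`, `GEO_stmt`). Marginals: a function of the
coordinates in the range of the injective `e : κ → ι`. `ι ≃ κ ⊕ {i // i ∉ range e}`, so
`(ι → ℕ) ≃ (κ → ℕ) × (rest → ℕ)`; the sum over the rest is `∏ ∑' wt = 1`. -/
def MAR_stmt : Prop := ∀ (ι κ : Type) [Fintype ι] [Fintype κ] (e : κ → ι), Injective e →
  ∀ (H : ℕ), 1 ≤ H → ∀ f : (κ → ℕ) → ℝ≥0∞, Ex H (fun x : ι → ℕ => f (x ∘ e)) = Ex H f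

/-- `HAR` (medium; hypothesis `GEO_stmt`). Harris' inequality. (1) Two antitone functions. First
one variable: for antitone `f, g : ℕ → ℝ≥0∞` and all `i, j`,
`f i * g j + f j * g i ≤ f i * g i + f j * g j`; multiply by `wt i * wt j` and sum over `i, j`:
`2 E f E g ≤ 2 E (f g)` (`∑' wt = 1`; if `f` takes the value `⊤` use that everything is in `ℝ≥0∞`,
`2 a ≤ 2 b → a ≤ b` by `ENNReal.mul_le_mul_left`). Induction on the number of variables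
(`ι = Option κ` or `Fin (n+1)`): for fixed first coordinate `j` the functions `f (j, ·)`, `g (j, ·)` are
antitone, `E_j E' (f g) ≥ E_j (E' f * E' g) ≥ E_j E' f * E_j E' g` as `j ↦ E' f (j, ·)` is antitone.
Transport along an equivalence of index types. (2) Finite families: induction on `K` with (1); a
finite product of antitone functions is antitone. -/
def HAR_stmt : Prop := ∀ (ι : Type) [Fintype ι] (H : ℕ), 1 ≤ H →
  (∀ f g : (ι → ℕ) → ℝ≥0∞, Antitone f → Antitone g → Ex H f * Ex H g ≤ Ex H fun x => f x * g x) ∧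
  (∀ (κ : Type) (K : Finset κ) (f : κ → (ι → ℕ) → ℝ≥0∞), (∀ k ∈ K, Antitone (f k)) →
    ∏ k ∈ K, Ex H (f k) ≤ Ex H fun x => ∏ k ∈ K, f k x)

/-! ## The average over the domains -/

/-- `WTL` (short; hypothesis `POS_stmt`). The memoryless property: with
`pos g L = ∑ g + L` both sides are `H^(∑ g + L) / (H+1)^(∑ g + L + 1)`
(`H ≥ 1`; `ENNReal.div_eq_inv_mul`, ...). -/
def WTL_stmt : Prop := ∀ (L H : ℕ) (g : Fin (L + 1) → ℕ), 1 ≤ H →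
  wt H (pos g L) = (H : ℝ≥0∞) ^ L * ∏ j, wt H (g j)

/-- `AVG` (medium; hypotheses `WTL_stmt`, `POS_stmt`, `DSJ_stmt`, `TRF_stmt`). By `WTL` the term
number `x` on the left is, with `m = len (ga x)`, `m' = len (gc x)`,
`(∏ wt H (m b)) (∏ wt H (m' i)) Pr(Dom m m')(First m m' (arr (ga x) (gc x)))`
(the product over `Bool × Fin L × Fin (L+1)` splits, `H^(2 L^2) = ∏_b H^L * ∏_i H^L`). Sum first over
the `x` with given `(m, m')` (the fibres of `x ↦ (len (ga x), len (gc x))`; e.g.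
`Equiv.sigmaFiberEquiv`, `ENNReal.tsum_sigma'`): the arrays `arr (ga x) (gc x)` are valid and
different for different `x` in one fibre (`POS`), so every finite partial sum is at most
`(∏ wt)(∏ wt) Pr(Dom m m')(there is a copy) ≤ (∏ wt)(∏ wt) Pr(..)(Has (grid L))` by `DSJ`, `TRF`. -/
def AVG_stmt : Prop := ∀ (L H : ℕ) (p : ℝ), 1 ≤ H → 0 ≤ p → p ≤ 1 →
  (H : ℝ≥0∞) ^ (2 * (L * L)) * Ex H (fun x : Bool × Fin L × Fin (L + 1) → ℕ =>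
    ENNReal.ofReal (Pr (Dom (len (ga x)) (len (gc x))) p
      (First (len (ga x)) (len (gc x)) (arr (ga x) (gc x))))) ≤
  Pav L H p (Has (grid L))

/-- `LOW` (short; hypotheses `AVG_stmt`, `FST_stmt`, `KAP_stmt`, `POS_stmt`). By `FST` and `KAP`,
`p^(L*L) kap ≤ Pr First`. -/
def LOW_stmt : Prop := ∀ (L H : ℕ) (p : ℝ), 1 ≤ H → 0 ≤ p → p ≤ 1 →
  ENNReal.ofReal (((H : ℝ) ^ 2 * p) ^ (L * L)) *
    Ex H (fun x : Bool × Fin L × Fin (L + 1) → ℕ => ENNReal.ofReal (kap p (ga x) (gc x))) ≤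
  Pav L H p (Has (grid L))

/-! ## Expectations -/

/-- `TBL` (medium; hypotheses `PRD_stmt`, `GEO_stmt`). The two point block. With
`n = x0 (x2 + x3) + x1 (x3 + x4)` and `0 ≤ p ≤ 1`:
`(1-p)^n ≥ 1 - n p + C(n,2) p^2 - C(n,3) p^3` (induction on `n`: if `q_n` is the difference then
`q_(n+1) = (1-p) q_n + C(n,3) p^4`). Expectations (product rule; write all as polynomials; use
`ℝ≥0∞` with the negative terms on the other side, or real sums):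
`E n = 4 H^2`; `E n^2 = 34 H^4 + 22 H^3 + 4 H^2`, so `E C(n,2) = 17 H^4 + 11 H^3 ≥ 17 H^4`;
`E C(n,3) ≤ E n^3 / 6`, `n^3 ≤ 4 (x0^3 (x2+x3)^3 + x1^3 (x3+x4)^3)`, `E x0^3 ≤ 13 H^3`,
`E (x2+x3)^3 = 24 H^3 + 18 H^2 + 2 H ≤ 44 H^3`, so `E C(n,3) ≤ 8 * 13 * 44 H^6 / 6 ≤ 763 H^6`.
(`(x+y)^3 ≤ 4(x^3+y^3)`.) With `p = θ / H^2` the claim follows. -/
def TBL_stmt : Prop := ∀ (H : ℕ) (θ : ℝ), 1 ≤ H → 0 ≤ θ → θ ≤ 1 / 100 →
  ENNReal.ofReal (1 - 4 * θ + 17 * θ ^ 2 - 763 * θ ^ 3) ≤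
  Ex H (fun x : Fin 5 → ℕ => ENNReal.ofReal
    ((1 - θ / (H : ℝ) ^ 2) ^ (x 0 * (x 2 + x 3) + x 1 * (x 3 + x 4))))

/-- `SGL` (short; hypotheses `PRD_stmt`, `GEO_stmt`). One variable, and one single block:
`(1-p)^n ≥ 1 - n p`, `E x0 = H`, `E x0 (x1 + x2) = 2 H^2`. -/
def SGL_stmt : Prop := ∀ (H : ℕ) (θ : ℝ), 1 ≤ H → 0 ≤ θ → θ ≤ 1 / 100 →
  (ENNReal.ofReal (1 - θ / H) ≤
    Ex H (fun x : Fin 1 → ℕ => ENNReal.ofReal ((1 - θ / (H : ℝ) ^ 2) ^ (x 0)))) ∧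
  (ENNReal.ofReal (1 - 2 * θ) ≤
    Ex H (fun x : Fin 3 → ℕ => ENNReal.ofReal ((1 - θ / (H : ℝ) ^ 2) ^ (x 0 * (x 1 + x 2)))))

/-- `KR2` (short to medium; hypotheses `PRD_stmt`, `GEO_stmt`). `n2` is a product of functions of
three different variables: `E = H * (H + 1) * (H^2 + H) = (H (H+1))^2`. -/
def KR2_stmt : Prop := ∀ (L H : ℕ) (q : Fin L × Fin L × Fin L), 1 ≤ H → q ∈ VP L →
  Ex H (fun x : Bool × Fin L × Fin (L + 1) → ℕ => (n2 (ga x) (gc x) q : ℝ≥0∞)) ≤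
    ((H : ℝ≥0∞) * (H + 1)) ^ 2

/-- `KR3` (medium; hypotheses `PRD_stmt`, `GEO_stmt`). `C(u, r) t^r ≤ (1+t)^u` for `t = 1/(2H)`, so
`bin Q g ≤ (2H)^|Q| (1+t)^|Q| ∏_(j ∈ adg Q) (1+t)^(g j)` and, with `r = |R| = ∑_b |rw1 R b| =
∑_i |rw2 R i|`, `n3 ≤ (2H)^(2r) (3/2)^(2r)` times the product of `(1+t)^(x_(..))` over at most
`2r + 2r` different variables (`|adg Q| ≤ 2 |Q|`); each of these has expectation `1/(1-1/2) = 2`:
`E n3 ≤ (2H)^(2r) (3/2)^(2r) 16^r = (144 H^2)^r`. -/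
def KR3_stmt : Prop := ∀ (L H : ℕ) (R : Finset (Fin L × Fin L)), 1 ≤ H →
  Ex H (fun x : Bool × Fin L × Fin (L + 1) → ℕ => (n3 (ga x) (gc x) R : ℝ≥0∞)) ≤
    (144 * (H : ℝ≥0∞) ^ 2) ^ R.card

/-- `BER` (short; hypothesis `GEO_stmt`). Bernoulli's inequality averaged: if `0 ≤ q ≤ 1`,
`E n ≤ B` (`B` real) then `E (1-q)^n ≥ 1 - q B` (`(1-q)^n + q n ≥ 1`, sum, subtract). -/
def BER_stmt : Prop := ∀ (ι : Type) [Fintype ι] (H : ℕ) (n : (ι → ℕ) → ℕ) (q B : ℝ), 1 ≤ H →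
  0 ≤ q → q ≤ 1 → 0 ≤ B → Ex H (fun x => (n x : ℝ≥0∞)) ≤ ENNReal.ofReal B →
  (∑' x : ι → ℕ, ∏ i, wt H (x i) = 1) →
  ENNReal.ofReal (1 - q * B) ≤ Ex H (fun x => ENNReal.ofReal ((1 - q) ^ n x))

/-- `SPL` (medium; hypotheses `HAR_stmt`, `MAR_stmt`, `TBL_stmt`, `SGL_stmt`). The one point factor.
`n1 a c u = a (c + c') + a + c` with `a = a u.1 u.2.castSucc`, `c = c u.2 u.1.castSucc`,
`c' = c u.2 u.1.succ`. So `∏_u (1-p)^(n1 u)` is the product of: for every `i` and every `β < L/2`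
the block factor of the pair `u = (2β, i)`, `(2β+1, i)`:
`(1-p)^(x0 (x2+x3) + x1 (x3+x4))` with the five different variables
`x0 = a (2β) i`, `x1 = a (2β+1) i`, `x2, x3, x4 = c i (2β), c i (2β+1), c i (2β+2)`; if `L` is odd, for
every `i` the factor `(1-p)^(x0 (x1+x2))` of `u = (L-1, i)`; and for every `u` the two factors
`(1-p)^a`, `(1-p)^c`. All are antitone: `HAR` (2), `MAR`, `TBL`, `SGL`. (The product over
`u : Fin L × Fin L` is a product over `i` of the product over `b : Fin L`; the latter is the product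
over `β < L/2` of the factors `2β`, `2β+1`, times the last one if `L` is odd; for `L` even the extra
`(1-2θ)^L ≤ 1` is given away.) -/
def SPL_stmt : Prop := ∀ (L H : ℕ) (θ : ℝ), 1 ≤ H → 0 ≤ θ → θ ≤ 1 / 100 →
  ENNReal.ofReal ((1 - 4 * θ + 17 * θ ^ 2 - 763 * θ ^ 3) ^ (L * (L / 2)) * (1 - 2 * θ) ^ L *
    (1 - θ / H) ^ (2 * (L * L))) ≤
  Ex H (fun x : Bool × Fin L × Fin (L + 1) → ℕ =>
    ENNReal.ofReal (∏ u, (1 - θ / (H : ℝ) ^ 2) ^ n1 (ga x) (gc x) u))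

/-- `KEX` (medium; hypotheses `HAR_stmt`, `SPL_stmt`, `KR2_stmt`, `KR3_stmt`, `BER_stmt`,
`PRD_stmt`, `GEO_stmt`). `kap` is a product of antitone functions of the gaps (`n1, n2, n3` are
monotone, `0 ≤ 1 - p^r ≤ 1`): `HAR`, and `SPL` for the first factor, `BER` with `KR2`
(`q = p^2 = θ^2/H^4`, `B = (H(H+1))^2`, `q B = θ^2 (1+1/H)^2`, at most `L*L` triples in `VP L`) for the
second, `BER` with `KR3` (`q = p^r`, `B = (144 H^2)^r`, `q B = (144 θ)^r`) for the third. The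
hypothesis `θ ≤ 1/1000` makes all numbers positive. -/
def KEX_stmt : Prop := ∀ (L H : ℕ) (θ : ℝ), 1 ≤ H → 0 ≤ θ → θ ≤ 1 / 1000 →
  ENNReal.ofReal (lb L H θ) ≤
  Ex H (fun x : Bool × Fin L × Fin (L + 1) → ℕ =>
    ENNReal.ofReal (kap (θ / (H : ℝ) ^ 2) (ga x) (gc x)))

/-- `WLK` (medium). The number of connected sets of `r` blocks through a given block. For a
connected `R ∋ u` with `|R| = r` and `1 ≤ j ≤ r` there are `R_j ⊆ R` with `|R_j| = j`, `u ∈ R_j`, and a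
closed walk from `u` with `2(j-1)` steps (a list of directions in `Fin 4`, i.e. `b ± 1`, `i ± 1`) whose
set of visited blocks is `R_j`: induction on `j`; by connectivity there are adjacent `z ∈ R_j`,
`v ∈ R \ R_j`; insert the detour `z → v → z` at a time when the walk is at `z`. So `R` is determined
by a list of `2(r-1)` directions: at most `4^(2(r-1)) ≤ 16^r` sets. (Any other proof of the bound
is fine.) -/
def WLK_stmt : Prop := ∀ (L r : ℕ) (u : Fin L × Fin L),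
  (Finset.univ.filter fun R : Finset (Fin L × Fin L) => Conn R ∧ u ∈ R ∧ R.card = r).card ≤ 16 ^ r

/-- `CSM` (short to medium; hypothesis `WLK_stmt`). `∑_(R ∈ CN L) x^|R| ≤ ∑_u ∑_(r ≥ 3) 16^r x^r ≤
L^2 (16x)^3 / (1 - 16x) ≤ 2 L^2 (16x)^3` (`r ≤ L*L`, finite sums) and `1 - y ≥ exp(-2y)` for
`0 ≤ y ≤ 1/2`. -/
def CSM_stmt : Prop := ∀ (L : ℕ) (x : ℝ), 0 ≤ x → x ≤ 1 / 32 →
  Real.exp (-4 * (16 * x) ^ 3) ^ (L * L) ≤ ∏ R ∈ CN L, (1 - x ^ R.card)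

/-! ## Upper bounds -/

/-- `UBA` (medium; hypotheses `BUR_stmt`, `PRD_stmt`, `GEO_stmt`). `p = θ/H^2`,
`α = (1-ε)/(H(z-1))` (`< 1` as `z ≥ 2`, `H ≥ 1`), `β = p(1-α)/(zα + p(1-α))`, so
`z(αβ) = p((1-α)(1-β))`, `0 ≤ β ≤ 1`, `β ≤ p/(zα)`, `Hβ(z-1) ≤ θ(z-1)^2/(z(1-ε)) ≤ 1-ε`,
`Hα(z-1) = 1-ε`. Multiply `BUR` by the weights and sum over `m, m'`:
`z^k Pav ≤ (∑' wt H j (1+α(z-1))^j)^L (∑' wt H j (1+β(z-1))^j)^L ≤ (1/ε)^L (1/ε)^L`
(`(1+t)^(∑ m) = ∏ (1+t)^(m b)`, `PRD`, `GEO`). -/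
def UBA_stmt : Prop := ∀ (L k H : ℕ) (θ z ε : ℝ), 1 ≤ H → 0 < θ → θ ≤ 1 → 2 ≤ z → 0 < ε → ε < 1 →
  θ * (z - 1) ^ 2 ≤ (1 - ε) ^ 2 * z →
  Pav L H (θ / (H : ℝ) ^ 2) (Has (1 : Perm (Fin k))) ≤
    ENNReal.ofReal ((1 / z) ^ k * (1 / ε) ^ (2 * L))

/-- `GPA` (medium; hypotheses `GPB_stmt`, `PRD_stmt`, `GEO_stmt`). Sum `GPB` with the weights:
`E (M M'^2 + M^2 M') = 2 E M E M^2`, `E M = L H`, `M^2 ≤ L ∑ m_b^2`, `E M^2 ≤ L^2 (2H^2 + H) ≤ 3 L^2 H^2`;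
`p^2 * 6 L^3 H^3 = 6 L^3 θ^2 / H`. (`E` of a function of one coordinate by `PRD` with the other
factors `∑' wt = 1`.) -/
def GPA_stmt : Prop := ∀ (L H : ℕ) (θ : ℝ), 1 ≤ H → 0 ≤ θ → θ ≤ 1 →
  Pav L H (θ / (H : ℝ) ^ 2) (fun S => ¬ GP S) ≤ ENNReal.ofReal (6 * (L : ℝ) ^ 3 * θ ^ 2 / H)

/-- `PVL` (short; hypothesis `LNK_stmt`). Average `LNK` over the domains. -/
def PVL_stmt : Prop := ∀ (k l : ℕ) (σ : Perm (Fin k)) (τ : Perm (Fin l)),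
  (∀ n, avCount n σ ≤ avCount n τ) → ∀ (L H : ℕ) (p : ℝ), 0 ≤ p → p ≤ 1 →
  Pav L H p (Has τ) ≤ Pav L H p (Has σ) + Pav L H p (fun S => ¬ GP S)

/-! ## Numbers and assembly -/

/-- `θ`. -/
def th : ℝ := 1 / 10 ^ 12

/-- `z`. -/
def zz : ℝ := 1 / th + 2 - 11 / 10 * th

/-- `ε`. -/
def ee : ℝ := th ^ 2 / 25

/-- `NU1` (short). Numbers: `θ(z-1)^2/z = θ(z - 2 + 1/z) = 1 - 1.1 θ^2 + θ/z ≤ 1 - 0.1 θ^2` as
`1/z ≤ θ`, and `(1-ε)^2 ≥ 1 - 0.08 θ^2`. Second claim: the value is `1 + 0.351 θ^2`; compare squares: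
`(θz)^2 (1-4θ+17θ^2-763θ^3) (1-θ^2)^2 exp(-8(2304θ)^3) ≥ (1+θ^2/10)^2` with
`exp(-y) ≥ 1 - y`, `θz = 1 + 2θ - 1.1θ^2`; rational numbers (`norm_num`), or a polynomial
inequality. -/
def NU1_stmt : Prop := th * (zz - 1) ^ 2 ≤ (1 - ee) ^ 2 * zz ∧ 2 ≤ zz ∧ 0 < ee ∧ ee < 1 ∧
  1 + th ^ 2 / 10 ≤ th * zz * Real.sqrt (1 - 4 * th + 17 * th ^ 2 - 763 * th ^ 3) * (1 - th ^ 2) *
    Real.exp (-4 * (16 * (144 * th)) ^ 3)

/-- `NU2` (short to medium; hypothesis `NU1_stmt`). With `B = 1 - 4θ + 17θ^2 - 763θ^3 ∈ (0,1)`: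
`B^(L (L/2)) ≥ (√B)^(L*L)` as `2 L (L/2) ≤ L*L`; so the quotient of the right side and the left side is
at least `(θ z √B (1-θ^2) exp(..))^(L*L) (1-2θ)^L ε^(2L) / z ≥ (1+θ^2/10)^(L*L) ((1-2θ) ε^2)^L / z`,
which tends to infinity (`(1+δ)^L ((1-2θ) ε^2) ≥ 2` for large `L`, so the `L`-th power is
`≥ 2^L > z`). -/
def NU2_stmt : Prop := ∃ L₀ : ℕ, ∀ L : ℕ, L₀ ≤ L →
  (1 / zz) ^ (L * L - 1) * (1 / ee) ^ (2 * L) <
    th ^ (L * L) * ((1 - 4 * th + 17 * th ^ 2 - 763 * th ^ 3) ^ (L * (L / 2)) * (1 - 2 * th) ^ L *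
      (1 - th ^ 2) ^ (L * L) * Real.exp (-4 * (16 * (144 * th)) ^ 3) ^ (L * L))

/-- `MID` (medium; hypotheses `LOW_stmt`, `KEX_stmt`, `CSM_stmt`, `UBA_stmt`, `GPA_stmt`,
`PVL_stmt`, `NU1_stmt`, `NU2_stmt`). Let `L ≥ max L₀ 2`, `k = L*L-1`, and suppose
`avCount n 1 ≤ avCount n (grid L)` for all `n`. For every `H ≥ 1`, with `p = θ/H^2`, `H^2 p = θ`:
`θ^(L*L) lb L H θ ≤ Pav(Has (grid L)) ≤ Pav(Has 1) + Pav(¬ GP) ≤ (1/z)^k (1/ε)^(2L) + 6L^3θ^2/H`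
(`LOW`, `KEX`, `PVL`, `UBA`, `GPA`). As `H` tends to infinity, `lb L H θ` tends to the number with
`(1-θ/H)^(..)` replaced by `1` and `(1+1/H)` by `1`, which with `CSM` (`x = 144 θ ≤ 1/32`) is at least
the second factor on the right in `NU2`: contradiction. -/
def MID_stmt : Prop := ∃ L₀ : ℕ, ∀ L : ℕ, L₀ ≤ L →
  ∃ n, avCount n (grid L) < avCount n (1 : Perm (Fin (L * L - 1)))

/-- `TOP` (short; hypotheses `FIA_stmt`, `FS1_stmt`, `MID_stmt`). The `n` of `MID` is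
`> L*L-1` by `FS1` (for `n < L*L-1` both counts are equal, for `n = L*L-1` the inequality is the
other one; `L*L-1 < L*L`). -/
def TOP_stmt : Prop := ∃ L₀ : ℕ, ∀ L : ℕ, L₀ ≤ L → ∃ n₂ n₃ : ℕ, L * L - 1 < n₂ ∧ n₂ < n₃ ∧
  avCount (L * L - 1) (1 : Perm (Fin (L * L - 1))) < avCount (L * L - 1) (grid L) ∧
  avCount n₂ (grid L) < avCount n₂ (1 : Perm (Fin (L * L - 1))) ∧
  ∀ n, n₃ ≤ n → avCount n (1 : Perm (Fin (L * L - 1))) < avCount n (grid L)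

end

end Pool.Agent.DSW
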